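import Pool.Agent.LibMaxMod.Closed

set_option autoImplicit false
set_option maxHeartbeats 1000000

open Set Filter Complex
open scoped Topology

namespace Pool.Agent.LibMaxMod

/-- an accumulating sequence of (complexified) ties produces a tie germ -/
lemma base {f g : ℂ → ℂ} (hf : Ent f) (hg : Ent g) {n : ℕ} {z w : ℕ → Fin (n + 1) → ℂ}
    {ρ M : ℕ → ℂ} {a b : Fin (n + 1) → ℂ} {ρ0 : ℂ}
    (hz : ∀ i, Tendsto (fun k => z k i) atTop (𝓝 (a i)))
    (hw : ∀ i, Tendsto (fun k => w k i) atTop (𝓝 (b i)))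
    (ha : ∀ i, a i ≠ 0) (hb : ∀ i, b i ≠ 0) (hfa : ∀ i, f (a i) ≠ 0) (hgb : ∀ i, g (b i) ≠ 0)
    (hna : ∀ i, Ent.num f (a i) ≠ 0) (hnb : ∀ i, Ent.num g (b i) ≠ 0)
    (hphi : ∀ k i, phi f (z k i) = phi g (w k i)) (hmul : ∀ k i, z k i * w k i = ρ k)
    (hval : ∀ k i, f (z k i) * g (w k i) = M k) (hρ : ∀ k, ρ k ≠ ρ0) (hab : ∀ i, a i * b i = ρ0)
    (hinj : ∀ i j, i ≠ j → a i ≠ a j) : (a 0, b 0) ∈ centres f g n := by
  set U : Ultrafilter ℕ := hyperfilter ℕ with hU
  have hUle : (U : Filter ℕ) ≤ atTop := Nat.hyperfilter_le_atTop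
  -- local inverses
  have hda : ∀ i, deriv (phi f) (a i) ≠ 0 := fun i => by
    rw [(hf.phi_deriv (hfa i)).deriv]
    exact div_ne_zero (hna i) (pow_ne_zero _ (hfa i))
  have hdb : ∀ i, deriv (phi g) (b i) ≠ 0 := fun i => by
    rw [(hg.phi_deriv (hgb i)).deriv]
    exact div_ne_zero (hnb i) (pow_ne_zero _ (hgb i))
  choose ψ hψan hψ0 hψr hψl using fun i => inv_germ (hf.phi_an (hfa i)) (hda i)
  choose χ hχan hχ0 hχr hχl using fun i => inv_germ (hg.phi_an (hgb i)) (hdb i)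
  have hlx : ∀ i, Tendsto (fun k => phi f (z k i)) atTop (𝓝 (phi f (a i))) := fun i =>
    (hf.phi_an (hfa i)).continuousAt.tendsto.comp (hz i)
  have hly : ∀ i, Tendsto (fun k => phi g (w k i)) atTop (𝓝 (phi g (b i))) := fun i =>
    (hg.phi_an (hgb i)).continuousAt.tendsto.comp (hw i)
  have hxy : ∀ i, phi g (b i) = phi f (a i) := fun i =>
    tendsto_nhds_unique (hly i) ((hlx i).congr fun k => hphi k i)
  have hχan' : ∀ i, AnalyticAt ℂ (χ i) (phi f (a i)) := fun i => by rw [← hxy i]; exact hχan i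
  have hχr' : ∀ i, ∀ᶠ t in 𝓝 (phi f (a i)), phi g (χ i t) = t := fun i => by
    rw [← hxy i]; exact hχr i
  have hχ0' : ∀ i, χ i (phi f (a i)) = b i := fun i => by rw [← hxy i]; exact hχ0 i
  -- functions N
  set N : Fin (n + 1) → ℂ → ℂ := fun i x => ψ i x * χ i x - ρ0 with hN
  have hNan : ∀ i, AnalyticAt ℂ (N i) (phi f (a i)) := fun i =>
    ((hψan i).mul (hχan' i)).sub analyticAt_const
  have hN0 : ∀ i, N i (phi f (a i)) = 0 := fun i => by
    simp only [hN]
    rw [hψ0, hχ0', hab, sub_self]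
  have hNk : ∀ i, ∀ᶠ k in atTop, N i (phi f (z k i)) = ρ k - ρ0 := by
    intro i
    filter_upwards [(hz i).eventually (hψl i), (hw i).eventually (hχl i)] with k h1 h2
    simp only [hN]
    rw [h1]
    nth_rewrite 1 [hphi k i]
    rw [h2, hmul]
  have hNnz : ∀ i, ¬ ∀ᶠ x in 𝓝 (phi f (a i)), N i x = 0 := by
    intro i h
    obtain ⟨k, h1, h2⟩ := (((hlx i).eventually h).and (hNk i)).exists
    rw [h1] at h2
    exact hρ k (sub_eq_zero.mp h2.symm)
  have hy : Tendsto (fun k => ρ k - ρ0) atTop (𝓝 0) := by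
    have h1 : Tendsto (fun k => z k 0 * w k 0) atTop (𝓝 (a 0 * b 0)) := (hz 0).mul (hw 0)
    rw [hab] at h1
    have h2 := (h1.congr fun k => hmul k 0).sub_const ρ0
    rwa [sub_self] at h2
  obtain ⟨L, xh, s, hL, hxan, hx0, hxN, hs0, hsx⟩ := puiseux U N (fun i => phi f (a i)) hNan hN0 hNnz
    (fun k i => phi f (z k i)) (fun i => (hlx i).mono_left hUle) (fun k => ρ k - ρ0)
    (hy.mono_left hUle) (hUle (Filter.eventually_all.mpr hNk))
  have hL0 : L ≠ 0 := Nat.one_le_iff_ne_zero.mp hL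
  have hsne : ∀ᶠ k in (U : Filter ℕ), s k ≠ 0 := by
    filter_upwards [hsx] with k hk h
    rw [h, zero_pow hL0] at hk
    exact hρ k (sub_eq_zero.mp hk.1.symm)
  have hs0' : Tendsto s U (𝓝[≠] 0) := tendsto_nhdsWithin_iff.mpr ⟨hs0, hsne⟩
  have hxt : ∀ i, Tendsto (xh i) (𝓝 0) (𝓝 (phi f (a i))) := fun i => by
    have := (hxan i).continuousAt.tendsto
    rwa [hx0 i] at this
  -- the germs
  have hzan : ∀ i, AnalyticAt ℂ (fun t => ψ i (xh i t)) 0 := fun i => by
    refine AnalyticAt.comp (g := ψ i) (f := xh i) ?_ (hxan i)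
    rw [hx0 i]; exact hψan i
  have hwan : ∀ i, AnalyticAt ℂ (fun t => χ i (xh i t)) 0 := fun i => by
    refine AnalyticAt.comp (g := χ i) (f := xh i) ?_ (hxan i)
    rw [hx0 i]; exact hχan' i
  have hz0 : ∀ i, ψ i (xh i 0) = a i := fun i => by rw [hx0 i]; exact hψ0 i
  have hw0 : ∀ i, χ i (xh i 0) = b i := fun i => by rw [hx0 i]; exact hχ0' i
  have hρt : ∀ i, ∀ᶠ t in 𝓝 (0 : ℂ), ψ i (xh i t) * χ i (xh i t) = ρ0 + t ^ L := fun i => by
    filter_upwards [hxN i] with t ht
    simp only [hN] at ht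
    rw [← ht]; ring
  have hpz : ∀ i, ∀ᶠ t in 𝓝 (0 : ℂ), phi f (ψ i (xh i t)) = xh i t := fun i =>
    (hxt i).eventually (hψr i)
  have hpw : ∀ i, ∀ᶠ t in 𝓝 (0 : ℂ), phi g (χ i (xh i t)) = xh i t := fun i =>
    (hxt i).eventually (hχr' i)
  -- values
  set V : Fin (n + 1) → ℂ → ℂ := fun i t => f (ψ i (xh i t)) * g (χ i (xh i t)) with hV
  have hVan : ∀ i, AnalyticAt ℂ (V i) 0 := fun i =>
    (AnalyticAt.comp (g := f) (f := fun t => ψ i (xh i t)) (hf.analytic _) (hzan i)).mul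
      (AnalyticAt.comp (g := g) (f := fun t => χ i (xh i t)) (hg.analytic _) (hwan i))
  have hVs : ∀ᶠ k in (U : Filter ℕ), ∀ i, V i (s k) = M k := by
    have h1 : ∀ᶠ k in atTop, ∀ i, ψ i (phi f (z k i)) = z k i ∧ χ i (phi g (w k i)) = w k i :=
      Filter.eventually_all.mpr fun i =>
        ((hz i).eventually (hψl i)).and ((hw i).eventually (hχl i))
    filter_upwards [hsx, hUle h1] with k h2 h3 i
    simp only [hV]
    rw [h2.2 i, (h3 i).1]
    nth_rewrite 1 [hphi k i]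
    rw [(h3 i).2, hval]
  have hVeq : ∀ i, ∀ᶠ t in 𝓝 (0 : ℂ), V i t = V 0 t := fun i => by
    rw [← (hVan i).frequently_eq_iff_eventually_eq (hVan 0)]
    refine hs0'.frequently ?_
    refine Filter.Eventually.frequently ?_
    filter_upwards [hVs] with k hk
    rw [hk i, hk 0]
  have hV0 : ∀ᶠ t in 𝓝 (0 : ℂ), V 0 t ≠ 0 := by
    refine (hVan 0).continuousAt.eventually_ne ?_
    simp only [hV]
    rw [hz0, hw0]
    exact mul_ne_zero (hfa 0) (hgb 0)
  -- logarithmic derivative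
  have hlog : ∀ i, ∀ᶠ t in 𝓝 (0 : ℂ),
      deriv (V i) t * (ρ0 + t ^ L) = xh i t * V i t * (L * t ^ (L - 1)) := by
    intro i
    have hfz : ∀ᶠ t in 𝓝 (0 : ℂ), f (ψ i (xh i t)) ≠ 0 := by
      have : ContinuousAt (fun t => f (ψ i (xh i t))) 0 :=
        ContinuousAt.comp (g := f) hf.diff.continuous.continuousAt (hzan i).continuousAt
      refine this.eventually_ne ?_
      rw [hz0]; exact hfa i
    have hgw : ∀ᶠ t in 𝓝 (0 : ℂ), g (χ i (xh i t)) ≠ 0 := by
      have : ContinuousAt (fun t => g (χ i (xh i t))) 0 :=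
        ContinuousAt.comp (g := g) hg.diff.continuous.continuousAt (hwan i).continuousAt
      refine this.eventually_ne ?_
      rw [hw0]; exact hgb i
    filter_upwards [hpz i, hpw i, (hzan i).eventually_analyticAt, (hwan i).eventually_analyticAt,
      eventually_eventually_nhds.mpr (hρt i), hfz, hgw] with t h1 h2 h3 h4 h5 h6 h7
    set zt := ψ i (xh i t) with hzt
    set wt := χ i (xh i t) with hwt
    set z' := deriv (fun t => ψ i (xh i t)) t with hz'
    set w' := deriv (fun t => χ i (xh i t)) t with hw'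
    have d1 : HasDerivAt (fun t => f (ψ i (xh i t))) (deriv f zt * z') t :=
      HasDerivAt.comp (h₂ := f) (h := fun t => ψ i (xh i t)) t
        (hf.analytic _).differentiableAt.hasDerivAt h3.differentiableAt.hasDerivAt
    have d2 : HasDerivAt (fun t => g (χ i (xh i t))) (deriv g wt * w') t :=
      HasDerivAt.comp (h₂ := g) (h := fun t => χ i (xh i t)) t
        (hg.analytic _).differentiableAt.hasDerivAt h4.differentiableAt.hasDerivAt
    have d3 : HasDerivAt (V i) (deriv f zt * z' * g wt + f zt * (deriv g wt * w')) t := d1.mul d2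
    have d4 : HasDerivAt (fun t => ψ i (xh i t) * χ i (xh i t)) (z' * wt + zt * w') t :=
      h3.differentiableAt.hasDerivAt.mul h4.differentiableAt.hasDerivAt
    have d5 : HasDerivAt (fun t : ℂ => ρ0 + t ^ L) (L * t ^ (L - 1)) t := by
      simpa using (hasDerivAt_pow L t).const_add ρ0
    have d6 : z' * wt + zt * w' = L * t ^ (L - 1) := by
      rw [← d4.deriv, ← d5.deriv]
      exact Filter.EventuallyEq.deriv_eq h5
    have h8 : ρ0 + t ^ L = zt * wt := h5.self_of_nhds.symm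
    have h9 : zt * deriv f zt = xh i t * f zt := by
      rw [← h1, phi]; field_simp
    have h10 : wt * deriv g wt = xh i t * g wt := by
      rw [← h2, phi]; field_simp
    rw [d3.deriv, h8, ← d6]
    have hVi : V i t = f zt * g wt := rfl
    rw [hVi]
    linear_combination (z' * g wt * wt) * h9 + (w' * f zt * zt) * h10
  have hxeq : ∀ i, ∀ᶠ t in 𝓝[≠] (0 : ℂ), xh i t = xh 0 t := by
    intro i
    filter_upwards [(hlog i).filter_mono nhdsWithin_le_nhds, (hlog 0).filter_mono nhdsWithin_le_nhds,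
      (eventually_eventually_nhds.mpr (hVeq i)).filter_mono nhdsWithin_le_nhds,
      hV0.filter_mono nhdsWithin_le_nhds, self_mem_nhdsWithin] with t h1 h2 h3 h4 h5
    have h6 : deriv (V i) t = deriv (V 0) t := Filter.EventuallyEq.deriv_eq h3
    have h7 : V i t = V 0 t := h3.self_of_nhds
    rw [h6, h7, h2] at h1
    have h8 : (L : ℂ) * t ^ (L - 1) ≠ 0 :=
      mul_ne_zero (by exact_mod_cast hL0) (pow_ne_zero _ h5)
    have h9 := mul_right_cancel₀ h8 h1
    exact (mul_right_cancel₀ h4 h9).symm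
  refine ⟨fun i t => ψ i (xh i t), fun i t => χ i (xh i t), ?_, hz0 0, hw0 0⟩
  refine ⟨hzan, hwan, fun i => by rw [hz0]; exact ha i, fun i => by rw [hw0]; exact hb i, ?_, ?_⟩
  · have e1 : ∀ᶠ t in 𝓝[≠] (0 : ℂ), ∀ i, ψ i (xh i t) ≠ 0 ∧ χ i (xh i t) ≠ 0 ∧
        f (ψ i (xh i t)) ≠ 0 ∧ g (χ i (xh i t)) ≠ 0 := by
      rw [Filter.eventually_all]
      intro i
      have c1 : ContinuousAt (fun t => f (ψ i (xh i t))) 0 :=
        ContinuousAt.comp (g := f) hf.diff.continuous.continuousAt (hzan i).continuousAt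
      have c2 : ContinuousAt (fun t => g (χ i (xh i t))) 0 :=
        ContinuousAt.comp (g := g) hg.diff.continuous.continuousAt (hwan i).continuousAt
      refine Filter.Eventually.filter_mono nhdsWithin_le_nhds ?_
      exact ((hzan i).continuousAt.eventually_ne (by rw [hz0]; exact ha i)).and
        (((hwan i).continuousAt.eventually_ne (by rw [hw0]; exact hb i)).and
          ((c1.eventually_ne (by rw [hz0]; exact hfa i)).and
            (c2.eventually_ne (by rw [hw0]; exact hgb i))))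
    have e2 : ∀ᶠ t in 𝓝[≠] (0 : ℂ), ∀ i, phi f (ψ i (xh i t)) = xh 0 t ∧
        phi g (χ i (xh i t)) = xh 0 t := by
      rw [Filter.eventually_all]
      intro i
      filter_upwards [hxeq i, (hpz i).filter_mono nhdsWithin_le_nhds,
        (hpw i).filter_mono nhdsWithin_le_nhds] with t h1 h2 h3
      rw [h2, h3, h1]
      exact ⟨rfl, rfl⟩
    have e3 : ∀ᶠ t in 𝓝[≠] (0 : ℂ), ∀ i, ψ i (xh i t) * χ i (xh i t) = ρ0 + t ^ L ∧
        V i t = V 0 t := by
      rw [Filter.eventually_all]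
      intro i
      exact ((hρt i).and (hVeq i)).filter_mono nhdsWithin_le_nhds
    have e4 : ∀ᶠ t in 𝓝[≠] (0 : ℂ), ∀ i j : Fin (n + 1), i ≠ j → ψ i (xh i t) ≠ ψ j (xh j t) := by
      rw [Filter.eventually_all]
      intro i
      rw [Filter.eventually_all]
      intro j
      by_cases hij : i = j
      · exact Eventually.of_forall fun t h => absurd hij h
      · have h1 : ∀ᶠ t in 𝓝 (0 : ℂ), ψ i (xh i t) - ψ j (xh j t) ≠ 0 := by
          refine ((hzan i).sub (hzan j)).continuousAt.eventually_ne ?_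
          show ψ i (xh i 0) - ψ j (xh j 0) ≠ 0
          rw [hz0, hz0]
          exact sub_ne_zero.mpr (hinj i j hij)
        exact (h1.filter_mono nhdsWithin_le_nhds).mono fun t ht _ => sub_ne_zero.mp ht
    filter_upwards [e1, e2, e3, e4] with t h1 h2 h3 h4
    exact ⟨fun i => (h1 i).1, fun i => (h1 i).2.1, fun i => (h1 i).2.2.1, fun i => (h1 i).2.2.2,
      fun i => by rw [(h2 i).1, (h2 0).1], fun i => by rw [(h2 i).2, (h2 0).1],
      fun i => by rw [(h3 i).1, (h3 0).1], fun i => (h3 i).2, h4⟩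
  · intro h
    have h1 := (h.and (hρt 0)).filter_mono (nhdsWithin_le_nhds (s := {0}ᶜ))
    obtain ⟨t, ⟨h2, h3⟩, h4⟩ := (h1.and self_mem_nhdsWithin).exists
    rw [h3, hz0, hw0, hab] at h2
    have h5 : t ^ L = 0 := by
      have := h2
      simpa using this
    exact h4 (pow_eq_zero_iff hL0 |>.mp h5)

end Pool.Agent.LibMaxMod
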