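import Mathlib

set_option autoImplicit false
set_option maxHeartbeats 1000000

open Set Filter Complex
open scoped Topology

namespace Pool.Agent.LibMaxMod

/-- analytic local inverse -/
lemma inv_germ {h : ℂ → ℂ} {a : ℂ} (ha : AnalyticAt ℂ h a) (hd : deriv h a ≠ 0) :
    ∃ Z : ℂ → ℂ, AnalyticAt ℂ Z (h a) ∧ Z (h a) = a ∧ (∀ᶠ t in 𝓝 (h a), h (Z t) = t) ∧
      (∀ᶠ z in 𝓝 a, Z (h z) = z) := by
  refine ⟨ha.hasStrictDerivAt.localInverse _ _ _ hd, ha.analyticAt_localInverse hd, ?_, ?_, ?_⟩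
  · exact HasStrictFDerivAt.localInverse_apply_image ..
  · exact HasStrictDerivAt.eventually_right_inverse ..
  · exact HasStrictDerivAt.eventually_left_inverse ..

/-- an analytic germ vanishing at `a` but not identically is a power of a local coordinate -/
lemma root_germ {A : ℂ → ℂ} {a : ℂ} (hA : AnalyticAt ℂ A a) (h0 : A a = 0)
    (hnz : ¬ ∀ᶠ z in 𝓝 a, A z = 0) :
    ∃ (v : ℕ) (h : ℂ → ℂ), 1 ≤ v ∧ AnalyticAt ℂ h a ∧ h a = 0 ∧ deriv h a ≠ 0 ∧
      ∀ᶠ z in 𝓝 a, A z = h z ^ v := by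
  obtain ⟨n, g, hg, hga, hgA⟩ := hA.exists_eventuallyEq_pow_smul_nonzero_iff.mpr hnz
  have hn : n ≠ 0 := by
    rintro rfl
    have := hgA.self_of_nhds
    simp [h0] at this
    exact hga this.symm
  set κ : ℂ → ℂ := fun z => (g a) ^ ((n : ℂ)⁻¹) * (g z / g a) ^ ((n : ℂ)⁻¹) with hκ
  have hκan : AnalyticAt ℂ κ a := by
    refine analyticAt_const.mul ?_
    refine AnalyticAt.cpow (hg.div analyticAt_const hga) analyticAt_const ?_
    simp [div_self hga]
  have hκpow : ∀ z, κ z ^ n = g z := by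
    intro z
    simp only [hκ, mul_pow]
    rw [Complex.cpow_nat_inv_pow _ hn, Complex.cpow_nat_inv_pow _ hn]
    field_simp
  have hκa : κ a ≠ 0 := by
    intro h
    have := hκpow a
    rw [h, zero_pow hn] at this
    exact hga this.symm
  refine ⟨n, fun z => (z - a) * κ z, Nat.one_le_iff_ne_zero.mpr hn, ?_, by simp, ?_, ?_⟩
  · exact (analyticAt_id.sub analyticAt_const).mul hκan
  · have h1 : HasDerivAt (fun z => (z - a) * κ z) (1 * κ a + (a - a) * deriv κ a) a :=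
      ((hasDerivAt_id a).sub_const a).mul hκan.differentiableAt.hasDerivAt
    rw [h1.deriv]
    simpa using hκa
  · filter_upwards [hgA] with z hz
    rw [hz, mul_pow, hκpow, smul_eq_mul]

/-- simultaneous Puiseux parametrisation along an ultrafilter -/
lemma puiseux {J : Type} [Fintype J] {ι : Type} (U : Ultrafilter ι) (A : J → ℂ → ℂ) (a : J → ℂ)
    (hA : ∀ j, AnalyticAt ℂ (A j) (a j)) (h0 : ∀ j, A j (a j) = 0)
    (hnz : ∀ j, ¬ ∀ᶠ z in 𝓝 (a j), A j z = 0) (p : ι → J → ℂ)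
    (hp : ∀ j, Tendsto (fun k => p k j) U (𝓝 (a j))) (y : ι → ℂ)
    (hy : Tendsto y U (𝓝 0)) (hyA : ∀ᶠ k in (U : Filter ι), ∀ j, A j (p k j) = y k) :
    ∃ (L : ℕ) (zh : J → ℂ → ℂ) (s : ι → ℂ), 1 ≤ L ∧ (∀ j, AnalyticAt ℂ (zh j) 0) ∧
      (∀ j, zh j 0 = a j) ∧ (∀ j, ∀ᶠ t in 𝓝 (0 : ℂ), A j (zh j t) = t ^ L) ∧
      Tendsto s U (𝓝 0) ∧ (∀ᶠ k in (U : Filter ι), s k ^ L = y k ∧ ∀ j, zh j (s k) = p k j) := by
  classical
  choose v h hv1 han ha0 hd hAh using fun j => root_germ (hA j) (h0 j) (hnz j)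
  choose Z hZan hZ0 hZr hZl using fun j => inv_germ (han j) (hd j)
  set L : ℕ := ∏ j, v j with hL
  have hL1 : 1 ≤ L := Nat.one_le_iff_ne_zero.mpr (Finset.prod_ne_zero_iff.mpr
    (fun j _ => Nat.one_le_iff_ne_zero.mp (hv1 j)))
  have hL0 : L ≠ 0 := Nat.one_le_iff_ne_zero.mp hL1
  have hdvd : ∀ j, v j * (L / v j) = L := fun j => Nat.mul_div_cancel' (Finset.dvd_prod_of_mem v (Finset.mem_univ j))
  have hm0 : ∀ j, L / v j ≠ 0 := by
    intro j h
    have := hdvd j
    rw [h, mul_zero] at this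
    exact hL0 this.symm
  choose s hs using fun k => IsAlgClosed.exists_pow_nat_eq (y k) (Nat.pos_of_ne_zero hL0)
  -- s tends to zero
  have hs0 : Tendsto s U (𝓝 0) := by
    have h1 : Tendsto (fun k => ‖y k‖ ^ ((L : ℝ)⁻¹)) U (𝓝 0) := by
      have h2 : Tendsto (fun k => ‖y k‖) U (𝓝 0) := by simpa using hy.norm
      have h3 := h2.rpow_const (p := (L : ℝ)⁻¹) (Or.inr (by positivity))
      rwa [Real.zero_rpow (by positivity)] at h3
    rw [tendsto_zero_iff_norm_tendsto_zero]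
    refine h1.congr (fun k => ?_)
    rw [← hs k, norm_pow, Real.pow_rpow_inv_natCast (norm_nonneg _) hL0]
  -- roots of unity
  have hroots : ∀ j, ∃ ε : ℂ, ε ^ v j = 1 ∧ ∀ᶠ k in (U : Filter ι), h j (p k j) = ε * s k ^ (L / v j) := by
    intro j
    have hvj : 0 < v j := hv1 j
    have hev : ∀ᶠ k in (U : Filter ι), ∃ ε ∈ (Polynomial.nthRootsFinset (v j) (1 : ℂ) : Set ℂ),
        h j (p k j) = ε * s k ^ (L / v j) := by
      filter_upwards [hyA, (hp j).eventually (hAh j)] with k hk1 hk2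
      have e1 : h j (p k j) ^ v j = (s k ^ (L / v j)) ^ v j := by
        rw [← hk2, hk1 j, ← pow_mul, mul_comm (L / v j), hdvd j, hs k]
      by_cases hsk : s k ^ (L / v j) = 0
      · refine ⟨1, ?_, ?_⟩
        · simp [Polynomial.mem_nthRootsFinset hvj]
        · rw [hsk, zero_pow hvj.ne'] at e1
          rw [hsk, mul_zero]
          exact pow_eq_zero_iff hvj.ne' |>.mp e1
      · refine ⟨h j (p k j) / s k ^ (L / v j), ?_, ?_⟩
        · rw [Finset.mem_coe, Polynomial.mem_nthRootsFinset hvj, div_pow, e1,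
            div_self (pow_ne_zero _ hsk)]
        · field_simp
    have hev' : (⋃ ε ∈ (Polynomial.nthRootsFinset (v j) (1 : ℂ) : Set ℂ),
        {k | h j (p k j) = ε * s k ^ (L / v j)}) ∈ (U : Filter ι) := by
      filter_upwards [hev] with k hk
      obtain ⟨ε, hε, hk⟩ := hk
      exact Set.mem_biUnion hε hk
    have := (Ultrafilter.finite_biUnion_mem_iff (Finset.finite_toSet _)).mp hev'
    obtain ⟨ε, hε, hεU⟩ := this
    refine ⟨ε, ?_, hεU⟩
    rwa [Finset.mem_coe, Polynomial.mem_nthRootsFinset hvj] at hε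
  choose ε hε1 hεU using hroots
  have hZ0' : ∀ j, Z j 0 = a j := fun j => by have := hZ0 j; rwa [ha0 j] at this
  have hinner : ∀ j, AnalyticAt ℂ (fun t : ℂ => ε j * t ^ (L / v j)) 0 := fun j =>
    analyticAt_const.mul (analyticAt_id.pow _)
  have hinner0 : ∀ j, (fun t : ℂ => ε j * t ^ (L / v j)) 0 = 0 := fun j => by
    simp [zero_pow (hm0 j)]
  have htend : ∀ j, Tendsto (fun t : ℂ => ε j * t ^ (L / v j)) (𝓝 0) (𝓝 0) := fun j => by
    have := (hinner j).continuousAt.tendsto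
    simpa only [zero_pow (hm0 j), mul_zero] using this
  refine ⟨L, fun j t => Z j (ε j * t ^ (L / v j)), s, hL1, ?_, ?_, ?_, hs0, ?_⟩
  · intro j
    have h1 : AnalyticAt ℂ (Z j) ((fun t : ℂ => ε j * t ^ (L / v j)) 0) := by
      rw [hinner0 j]
      have := hZan j
      rwa [ha0 j] at this
    exact AnalyticAt.comp (g := Z j) (f := fun t : ℂ => ε j * t ^ (L / v j)) h1 (hinner j)
  · intro j
    show Z j (ε j * 0 ^ (L / v j)) = a j
    rw [zero_pow (hm0 j), mul_zero, hZ0' j]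
  · intro j
    have hZc : Tendsto (Z j) (𝓝 0) (𝓝 (a j)) := by
      have := (hZan j).continuousAt.tendsto
      rwa [ha0 j, hZ0' j] at this
    have h1 : ∀ᶠ t in 𝓝 (0:ℂ), A j (Z j t) = h j (Z j t) ^ v j := hZc.eventually (hAh j)
    have h2 : ∀ᶠ t in 𝓝 (0:ℂ), h j (Z j t) = t := by
      have := hZr j
      rwa [ha0 j] at this
    filter_upwards [(htend j).eventually h1, (htend j).eventually h2] with t ht1 ht2
    rw [ht1, ht2, mul_pow, hε1, one_mul, ← pow_mul, mul_comm (L / v j), hdvd j]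
  · have h1 : ∀ᶠ k in (U : Filter ι), ∀ j, Z j (h j (p k j)) = p k j ∧
        h j (p k j) = ε j * s k ^ (L / v j) := by
      rw [Filter.eventually_all]
      intro j
      exact ((hp j).eventually (hZl j)).and (hεU j)
    filter_upwards [h1] with k hk
    refine ⟨hs k, fun j => ?_⟩
    rw [← (hk j).2, (hk j).1]

end Pool.Agent.LibMaxMod
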