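import Pool.Agent.LibMaxMod.Escape

set_option autoImplicit false
set_option maxHeartbeats 1000000

open Set Filter Complex
open scoped Topology

namespace Pool.Agent.LibMaxMod

lemma Tie.exists_reg {f g : ℂ → ℂ} (hf : Ent f) (hg : Ent g) {n : ℕ} {z w : Fin (n + 1) → ℂ → ℂ}
    (h : Tie f g n z w) (c : ℂ) {ε : ℝ} (hε : 0 < ε) :
    ∃ z' w' : Fin (n + 1) → ℂ → ℂ, RegTie f g n z' w' ∧ phi f (z' 0 0) ≠ 0 ∧ phi f (z' 0 0) ≠ c ∧
      ‖z' 0 0 - z 0 0‖ < ε ∧ ‖w' 0 0 - w 0 0‖ < ε := by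
  have e1 : ∀ᶠ s in 𝓝 (0 : ℂ), ‖z 0 s - z 0 0‖ < ε := by
    have := (h.zan 0).continuousAt.tendsto.eventually (Metric.ball_mem_nhds _ hε)
    filter_upwards [this] with s hs
    rwa [dist_eq_norm] at hs
  have e2 : ∀ᶠ s in 𝓝 (0 : ℂ), ‖w 0 s - w 0 0‖ < ε := by
    have := (h.wan 0).continuousAt.tendsto.eventually (Metric.ball_mem_nhds _ hε)
    filter_upwards [this] with s hs
    rwa [dist_eq_norm] at hs
  obtain ⟨s, ⟨h1, h2⟩, ⟨_, h3⟩, h4, h5⟩ := ((h.regular hf hg 0).and ((h.regular hf hg c).and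
    ((e1.and e2).filter_mono nhdsWithin_le_nhds))).exists
  exact ⟨fun i t => z i (s + t), fun i t => w i (s + t), h1, by simpa using h2, by simpa using h3,
    by simpa using h4, by simpa using h5⟩

lemma not_tendsto_zero_bound {ι : Type} (U : Ultrafilter ι) {u : ι → ℂ}
    (h : ¬ Tendsto u U (𝓝 0)) : ∃ ε > 0, ∀ᶠ k in (U : Filter ι), ε ≤ ‖u k‖ := by
  rw [Metric.tendsto_nhds] at h
  push Not at h
  obtain ⟨ε, hε, h1⟩ := h
  refine ⟨ε, hε, ?_⟩
  filter_upwards [h1] with k hk
  simpa using hk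

lemma bounded_tendsto {ι : Type} (U : Ultrafilter ι) {u : ι → ℂ} {R : ℝ}
    (h : ∀ᶠ k in (U : Filter ι), ‖u k‖ ≤ R) : ∃ a, Tendsto u U (𝓝 a) := by
  have h1 : ((U.map u : Ultrafilter ℂ) : Filter ℂ) ≤ 𝓟 (Metric.closedBall (0 : ℂ) R) := by
    rw [le_principal_iff]
    show ∀ᶠ k in (U : Filter ι), u k ∈ Metric.closedBall (0 : ℂ) R
    filter_upwards [h] with k hk
    simpa using hk
  obtain ⟨a, _, ha⟩ := (isCompact_closedBall (0 : ℂ) R).ultrafilter_le_nhds _ h1
  exact ⟨a, ha⟩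

/-- the limit of centres (with nonzero coordinates) is a centre -/
lemma centres_closed {f g : ℂ → ℂ} (hf : Ent f) (hg : Ent g) {n : ℕ} {P : ℕ → ℂ × ℂ} {Q : ℂ × ℂ}
    (hP : ∀ k, P k ∈ centres f g n) (hlim : Tendsto P atTop (𝓝 Q)) (hQ1 : Q.1 ≠ 0)
    (hQ2 : Q.2 ≠ 0) : Q ∈ centres f g n := by
  have hsel : ∀ k, ∃ z w : Fin (n + 1) → ℂ → ℂ, RegTie f g n z w ∧ phi f (z 0 0) ≠ 0 ∧
      phi f (z 0 0) ≠ phi f Q.1 ∧ ‖z 0 0 - (P k).1‖ < 1 / ((k : ℝ) + 1) ∧
      ‖w 0 0 - (P k).2‖ < 1 / ((k : ℝ) + 1) := by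
    intro k
    obtain ⟨z, w, ht, h1, h2⟩ := hP k
    rw [← h1, ← h2]
    exact ht.exists_reg hf hg (phi f Q.1) (by positivity)
  choose z w hreg hx0 hxQ hzP hwP using hsel
  have hz : Tendsto (fun k => z k 0 0) atTop (𝓝 Q.1) := by
    have h1 : Tendsto (fun k => z k 0 0 - (P k).1) atTop (𝓝 0) :=
      squeeze_zero_norm (fun k => (hzP k).le) tendsto_one_div_add_atTop_nhds_zero_nat
    have h2 := h1.add ((continuous_fst.tendsto Q).comp hlim)
    simpa using h2
  have hw : Tendsto (fun k => w k 0 0) atTop (𝓝 Q.2) := by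
    have h1 : Tendsto (fun k => w k 0 0 - (P k).2) atTop (𝓝 0) :=
      squeeze_zero_norm (fun k => (hwP k).le) tendsto_one_div_add_atTop_nhds_zero_nat
    have h2 := h1.add ((continuous_snd.tendsto Q).comp hlim)
    simpa using h2
  set U : Ultrafilter ℕ := hyperfilter ℕ with hU
  have hUle : (U : Filter ℕ) ≤ atTop := Nat.hyperfilter_le_atTop
  have hzU : Tendsto (fun k => z k 0 0) U (𝓝 Q.1) := hz.mono_left hUle
  have hwU : Tendsto (fun k => w k 0 0) U (𝓝 Q.2) := hw.mono_left hUle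
  -- no escape
  have hnw : ∀ i, ¬ Tendsto (fun k => w k i 0) U (𝓝 0) := fun i hi =>
    no_escape hf hg U (Eventually.of_forall hreg) (Eventually.of_forall hx0) hQ1 hQ2 hzU hwU i hi
  have hnz : ∀ i, ¬ Tendsto (fun k => z k i 0) U (𝓝 0) := fun i hi =>
    no_escape hg hf U (Eventually.of_forall fun k => (hreg k).swap)
      (Eventually.of_forall fun k => by
        rw [(hreg k).rel.self_of_nhds.pw 0]; exact hx0 k) hQ2 hQ1 hwU hzU i hi
  choose εw hεw hbw using fun i => not_tendsto_zero_bound U (hnw i)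
  choose εz hεz hbz using fun i => not_tendsto_zero_bound U (hnz i)
  have hmul : ∀ k i, z k i 0 * w k i 0 = z k 0 0 * w k 0 0 := fun k i =>
    (hreg k).rel.self_of_nhds.mul i
  have hρ : Tendsto (fun k => ‖z k 0 0 * w k 0 0‖) U (𝓝 ‖Q.1 * Q.2‖) := (hzU.mul hwU).norm
  have hρb : ∀ᶠ k in (U : Filter ℕ), ‖z k 0 0 * w k 0 0‖ ≤ ‖Q.1 * Q.2‖ + 1 :=
    hρ.eventually (Iic_mem_nhds (lt_add_one _))
  have hzlim : ∀ i, ∃ a, Tendsto (fun k => z k i 0) U (𝓝 a) := by
    intro i
    refine bounded_tendsto U (R := (‖Q.1 * Q.2‖ + 1) / εw i) ?_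
    filter_upwards [hρb, hbw i] with k h1 h2
    rw [le_div_iff₀ (hεw i)]
    calc ‖z k i 0‖ * εw i ≤ ‖z k i 0‖ * ‖w k i 0‖ := by gcongr
      _ = ‖z k 0 0 * w k 0 0‖ := by rw [← norm_mul, hmul]
      _ ≤ _ := h1
  have hwlim : ∀ i, ∃ a, Tendsto (fun k => w k i 0) U (𝓝 a) := by
    intro i
    refine bounded_tendsto U (R := (‖Q.1 * Q.2‖ + 1) / εz i) ?_
    filter_upwards [hρb, hbz i] with k h1 h2
    rw [le_div_iff₀ (hεz i)]
    calc ‖w k i 0‖ * εz i ≤ ‖w k i 0‖ * ‖z k i 0‖ := by gcongr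
      _ = ‖z k 0 0 * w k 0 0‖ := by rw [← norm_mul, mul_comm, hmul]
      _ ≤ _ := h1
  choose az haz using hzlim
  choose aw haw using hwlim
  have haz0 : ∀ i, az i ≠ 0 := by
    intro i h; apply hnz i; have := haz i; rwa [h] at this
  have haw0 : ∀ i, aw i ≠ 0 := by
    intro i h; apply hnw i; have := haw i; rwa [h] at this
  have hazQ : az 0 = Q.1 := tendsto_nhds_unique (haz 0) hzU
  have hawQ : aw 0 = Q.2 := tendsto_nhds_unique (haw 0) hwU
  -- the limit germ
  set F : Fin (n + 1) ⊕ Fin (n + 1) → ℂ → ℂ := Sum.elim (fun _ => f) (fun _ => g) with hFdef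
  set p : ℕ → Fin (n + 1) ⊕ Fin (n + 1) → ℂ → ℂ := fun k => Sum.elim (z k) (w k) with hp
  have hF : ∀ j, Ent (F j) := by
    rintro (j | j)
    · exact hf
    · exact hg
  have hreg' : ∀ k, RegG F (p k) (fun t => phi f (z k 0 t)) := by
    intro k
    refine ⟨?_, ?_, (hreg k).xd, ?_, ?_⟩
    · rintro (j | j)
      · exact (hreg k).zan j
      · exact (hreg k).wan j
    · exact AnalyticAt.comp (g := phi f) (f := z k 0)
        (hf.phi_an ((hreg k).rel.self_of_nhds.fz 0)) ((hreg k).zan 0)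
    · rintro (j | j)
      · exact (hreg k).rel.mono fun t ht => ht.fz j
      · exact (hreg k).rel.mono fun t ht => ht.gw j
    · rintro (j | j)
      · exact (hreg k).rel.mono fun t ht => ht.pz j
      · exact (hreg k).rel.mono fun t ht => ht.pw j
  have hplim : ∀ j, Tendsto (fun k => p k j 0) U (𝓝 ((Sum.elim az aw : Fin (n + 1) ⊕ Fin (n + 1) → ℂ) j)) := by
    rintro (j | j)
    · exact haz j
    · exact haw j
  obtain ⟨c, hc, hc0⟩ : ∃ c : Option ℂ, Tendsto (fun k => chart c ((fun t => phi f (z k 0 t)) 0)) U (𝓝 0) ∧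
      ∀ᶠ k in (U : Filter ℕ), chart c ((fun t => phi f (z k 0 t)) 0) ≠ 0 := by
    by_cases hfQ : f Q.1 = 0
    · refine ⟨none, ?_, ?_⟩
      · obtain ⟨A, hA, hA0, hAz⟩ := hf.phi_inf hfQ
        have hne : ∀ᶠ k in (U : Filter ℕ), z k 0 0 ≠ Q.1 := Eventually.of_forall fun k h => by
          have := (hreg k).rel.self_of_nhds.fz 0
          simp only [h] at this
          exact this hfQ
        have h1 : Tendsto (fun k => z k 0 0) U (𝓝[≠] Q.1) := tendsto_nhdsWithin_iff.mpr ⟨hzU, hne⟩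
        have h2 : Tendsto (fun k => A (z k 0 0)) U (𝓝 0) := by
          have := hA.continuousAt.tendsto.comp hzU
          rwa [hA0] at this
        refine h2.congr' ?_
        filter_upwards [h1.eventually hAz] with k hk
        simp only [chart]
        exact eq_inv_of_mul_eq_one_left hk.2
      · refine Eventually.of_forall fun k => ?_
        simp only [chart]
        exact inv_ne_zero (hx0 k)
    · refine ⟨some (phi f Q.1), ?_, ?_⟩
      · have h1 := (hf.phi_an hfQ).continuousAt.tendsto.comp hzU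
        have h2 := h1.sub_const (phi f Q.1)
        rw [sub_self] at h2
        exact h2
      · refine Eventually.of_forall fun k => ?_
        simp only [chart]
        exact sub_ne_zero.mpr (hxQ k)
  obtain ⟨L, zh, hL, hzan, hz0, hzF, hV⟩ := limit_germ U F hF p (fun k t => phi f (z k 0 t))
    (Eventually.of_forall hreg') (Sum.elim az aw) hplim c hc hc0
  have hz0' : ∀ j, zh j 0 ≠ 0 := by
    rintro (j | j)
    · rw [hz0]; exact haz0 j
    · rw [hz0]; exact haw0 j
  obtain ⟨δ, hδ, hball⟩ := Metric.eventually_nhds_iff_ball.mp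
    ((Filter.eventually_all.mpr (fun j => (hzan j).eventually_analyticAt)))
  obtain ⟨k, s, hsV, hs0, ψ, hψ, hψz⟩ := (hV _ (Metric.ball_mem_nhds 0 hδ)).exists
  have hψt : Tendsto ψ (𝓝 s) (𝓝 0) := hψ.le
  have hprop : ∀ E : ℂ → ℂ, AnalyticOnNhd ℂ E (Metric.ball (0 : ℂ) δ) → (∀ᶠ t in 𝓝 s, E t = 0) →
      ∀ᶠ t in 𝓝 (0 : ℂ), E t = 0 := by
    intro E hE hEs
    have h0 : AnalyticOnNhd ℂ (fun _ : ℂ => (0 : ℂ)) (Metric.ball (0 : ℂ) δ) :=
      fun z _ => analyticAt_const
    have := hE.eqOn_of_preconnected_of_eventuallyEq h0 (convex_ball _ _).isPreconnected hsV hEs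
    filter_upwards [Metric.ball_mem_nhds (0 : ℂ) hδ] with t ht using this ht
  have hψz' : ∀ᶠ t in 𝓝 s, ∀ j, zh j t = p k j (ψ t) := Filter.eventually_all.mpr hψz
  have hrel := hψt.eventually (hreg k).rel
  refine ⟨fun i => zh (Sum.inl i), fun i => zh (Sum.inr i), ?_, ?_, ?_⟩
  · refine ⟨fun i => hzan _, fun i => hzan _, fun i => hz0' _, fun i => hz0' _, ?_, ?_⟩
    · have e0 : ∀ᶠ t in 𝓝[≠] (0 : ℂ), ∀ j, zh j t ≠ 0 := by
        rw [Filter.eventually_all]
        intro j
        exact ((hzan j).continuousAt.eventually_ne (hz0' j)).filter_mono nhdsWithin_le_nhds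
      have e1 : ∀ᶠ t in 𝓝[≠] (0 : ℂ), ∀ j, F j (zh j t) ≠ 0 ∧ chart c (phi (F j) (zh j t)) = t ^ L := by
        rw [Filter.eventually_all]
        intro j
        exact (hzF j).mono fun t ht => ht.2
      have e2 : ∀ᶠ t in 𝓝 (0 : ℂ), ∀ i : Fin (n + 1),
          zh (Sum.inl i) t * zh (Sum.inr i) t = zh (Sum.inl 0) t * zh (Sum.inr 0) t := by
        rw [Filter.eventually_all]
        intro i
        have := hprop (fun t => zh (Sum.inl i) t * zh (Sum.inr i) t - zh (Sum.inl 0) t * zh (Sum.inr 0) t)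
          (fun t ht => ((hball t ht _).mul (hball t ht _)).sub ((hball t ht _).mul (hball t ht _))) (by
            filter_upwards [hψz', hrel] with t h1 h2
            rw [h1, h1, h1, h1]
            exact sub_eq_zero.mpr (h2.mul i))
        filter_upwards [this] with t ht using sub_eq_zero.mp ht
      have e3 : ∀ᶠ t in 𝓝 (0 : ℂ), ∀ i : Fin (n + 1),
          f (zh (Sum.inl i) t) * g (zh (Sum.inr i) t) = f (zh (Sum.inl 0) t) * g (zh (Sum.inr 0) t) := by
        rw [Filter.eventually_all]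
        intro i
        have hfa : ∀ i, ∀ t ∈ Metric.ball (0 : ℂ) δ, AnalyticAt ℂ (fun t => f (zh (Sum.inl i) t)) t :=
          fun i t ht => AnalyticAt.comp (g := f) (f := zh (Sum.inl i)) (hf.analytic _) (hball t ht _)
        have hga : ∀ i, ∀ t ∈ Metric.ball (0 : ℂ) δ, AnalyticAt ℂ (fun t => g (zh (Sum.inr i) t)) t :=
          fun i t ht => AnalyticAt.comp (g := g) (f := zh (Sum.inr i)) (hg.analytic _) (hball t ht _)
        have := hprop (fun t => f (zh (Sum.inl i) t) * g (zh (Sum.inr i) t)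
            - f (zh (Sum.inl 0) t) * g (zh (Sum.inr 0) t))
          (fun t ht => ((hfa i t ht).mul (hga i t ht)).sub ((hfa 0 t ht).mul (hga 0 t ht))) (by
            filter_upwards [hψz', hrel] with t h1 h2
            rw [h1, h1, h1, h1]
            exact sub_eq_zero.mpr (h2.val i))
        filter_upwards [this] with t ht using sub_eq_zero.mp ht
      have e4 : ∀ᶠ t in 𝓝[≠] (0 : ℂ), ∀ i j : Fin (n + 1), i ≠ j →
          zh (Sum.inl i) t ≠ zh (Sum.inl j) t := by
        rw [Filter.eventually_all]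
        intro i
        rw [Filter.eventually_all]
        intro j
        by_cases hij : i = j
        · exact Eventually.of_forall fun t h => absurd hij h
        · rcases (hzan (Sum.inl i)).eventually_eq_or_eventually_ne (hzan (Sum.inl j)) with h | h
          · exfalso
            have han : AnalyticOnNhd ℂ (fun t => zh (Sum.inl i) t - zh (Sum.inl j) t)
                (Metric.ball (0 : ℂ) δ) := fun t ht => (hball t ht _).sub (hball t ht _)
            have h0 : AnalyticOnNhd ℂ (fun _ : ℂ => (0 : ℂ)) (Metric.ball (0 : ℂ) δ) :=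
              fun z _ => analyticAt_const
            have h1 := han.eqOn_of_preconnected_of_eventuallyEq h0 (convex_ball _ _).isPreconnected
              (Metric.mem_ball_self hδ) (h.mono fun t ht => sub_eq_zero.mpr ht)
            have h2 := h1 hsV
            have h3 := hψz'.self_of_nhds
            have h4 := hrel.self_of_nhds.inj i j hij
            apply h4
            have h5 := h3 (Sum.inl i)
            have h6 := h3 (Sum.inl j)
            simp only [hp, Sum.elim_inl] at h5 h6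
            show z k i (ψ s) = z k j (ψ s)
            rw [← h5, ← h6]
            exact sub_eq_zero.mp h2
          · exact h.mono fun t ht _ => ht
      filter_upwards [e0, e1, e2.filter_mono nhdsWithin_le_nhds, e3.filter_mono nhdsWithin_le_nhds, e4]
        with t h0 h1 h2 h3 h4
      have hch : ∀ j, phi (F j) (zh j t) = phi f (zh (Sum.inl 0) t) := by
        intro j
        apply chart_inj c
        rw [(h1 j).2]
        exact ((h1 (Sum.inl 0)).2).symm
      exact ⟨fun i => h0 _, fun i => h0 _, fun i => (h1 (Sum.inl i)).1, fun i => (h1 (Sum.inr i)).1,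
        fun i => hch (Sum.inl i), fun i => hch (Sum.inr i), h2, h3, h4⟩
    · intro hconst
      have h1 := hprop (fun t => zh (Sum.inl 0) t * zh (Sum.inr 0) t - zh (Sum.inl 0) 0 * zh (Sum.inr 0) 0)
        (fun t ht => ((hball t ht _).mul (hball t ht _)).sub analyticAt_const)
      have han : AnalyticOnNhd ℂ (fun t => zh (Sum.inl 0) t * zh (Sum.inr 0) t
          - zh (Sum.inl 0) 0 * zh (Sum.inr 0) 0) (Metric.ball (0 : ℂ) δ) :=
        fun t ht => ((hball t ht _).mul (hball t ht _)).sub analyticAt_const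
      have h0 : AnalyticOnNhd ℂ (fun _ : ℂ => (0 : ℂ)) (Metric.ball (0 : ℂ) δ) :=
        fun z _ => analyticAt_const
      have h2 := han.eqOn_of_preconnected_of_eventuallyEq h0 (convex_ball _ _).isPreconnected
        (Metric.mem_ball_self hδ) (hconst.mono fun t ht => sub_eq_zero.mpr ht)
      set C := zh (Sum.inl 0) 0 * zh (Sum.inr 0) 0 with hC
      have h3 : ∀ᶠ t in 𝓝 s, z k 0 (ψ t) * w k 0 (ψ t) = C := by
        filter_upwards [hψz', Metric.isOpen_ball.mem_nhds hsV] with t h4 h5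
        have h6 := h2 h5
        have h7 := h4 (Sum.inl 0)
        have h8 := h4 (Sum.inr 0)
        simp only [hp, Sum.elim_inl, Sum.elim_inr] at h7 h8
        rw [← h7, ← h8]
        exact sub_eq_zero.mp h6
      have h4 : ∀ᶠ u in 𝓝 (0 : ℂ), z k 0 u * w k 0 u = C := by
        rw [← hψ]
        exact h3
      apply (hreg k).rd
      have : deriv (fun t => z k 0 t * w k 0 t) 0 = deriv (fun _ : ℂ => C) 0 :=
        Filter.EventuallyEq.deriv_eq h4
      rw [this, deriv_const]
  · show zh (Sum.inl 0) 0 = Q.1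
    rw [hz0, ← hazQ]; rfl
  · show zh (Sum.inr 0) 0 = Q.2
    rw [hz0, ← hawQ]; rfl

end Pool.Agent.LibMaxMod
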