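import Pool.Agent.LibMaxMod.Closed

set_option autoImplicit false
set_option maxHeartbeats 1000000

open Set Filter Complex
open scoped Topology

namespace Pool.Agent.LibMaxMod

lemma Ent.finite_to_one {F : ℂ → ℂ} (hF : Ent F) : ∃ r > 0, ∃ e : ℕ, ∀ (T : Finset ℂ) (x : ℂ),
    (∀ u ∈ T, ‖u‖ < r ∧ phi F u = x) → T.card ≤ e := by
  have h0 : phi F 0 = 0 := by simp [phi]
  obtain ⟨v, h, hv, han, _, hd, hpow⟩ := root_germ (hF.phi_an hF.zero) h0 (hF.phi_nc hF.zero 0)
  obtain ⟨Z, _, _, _, hZl⟩ := inv_germ han hd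
  obtain ⟨r, hr, hball⟩ := Metric.eventually_nhds_iff_ball.mp (hpow.and hZl)
  refine ⟨r, hr, v, fun T x hT => ?_⟩
  classical
  have hb : ∀ u ∈ T, u ∈ Metric.ball (0 : ℂ) r := fun u hu => by simpa using (hT u hu).1
  have hinj : Set.InjOn h (T : Set ℂ) := by
    intro u hu u' hu' he
    rw [← (hball u (hb u hu)).2, ← (hball u' (hb u' hu')).2, he]
  have hsub : T.image h ⊆ (Polynomial.nthRoots v x).toFinset := by
    intro y hy
    obtain ⟨u, hu, rfl⟩ := Finset.mem_image.mp hy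
    rw [Multiset.mem_toFinset, Polynomial.mem_nthRoots hv, ← (hball u (hb u hu)).1, (hT u hu).2]
  calc T.card = (T.image h).card := (Finset.card_image_of_injOn hinj).symm
    _ ≤ (Polynomial.nthRoots v x).toFinset.card := Finset.card_le_card hsub
    _ ≤ Multiset.card (Polynomial.nthRoots v x) := Multiset.toFinset_card_le _
    _ ≤ v := Polynomial.card_nthRoots v x

lemma eta_bound {f g : ℂ → ℂ} (hf : Ent f) (hg : Ent g) : ∃ η > 0, ∃ N : ℕ, ∀ n ≥ N,
    ∀ P ∈ centres f g n, η ≤ ‖P.1 * P.2‖ := by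
  obtain ⟨r1, hr1, e1, h1⟩ := hf.finite_to_one
  obtain ⟨r2, hr2, e2, h2⟩ := hg.finite_to_one
  refine ⟨r1 * r2, mul_pos hr1 hr2, e1 + e2, ?_⟩
  rintro n hn P ⟨z, w, ht, hP1, hP2⟩
  by_contra hlt
  push Not at hlt
  rw [← hP1, ← hP2] at hlt
  have hc : ContinuousAt (fun t => ‖z 0 t * w 0 t‖) 0 :=
    ((ht.zan 0).continuousAt.mul (ht.wan 0).continuousAt).norm
  have hev : ∀ᶠ t in 𝓝 (0 : ℂ), ‖z 0 t * w 0 t‖ < r1 * r2 := hc.tendsto.eventually (Iio_mem_nhds hlt)
  obtain ⟨t, h3, h4⟩ := (ht.rel.and (hev.filter_mono nhdsWithin_le_nhds)).exists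
  classical
  set A : Finset (Fin (n + 1)) := Finset.univ.filter (fun i => ‖z i t‖ < r1) with hA
  have hAc : ∀ i ∈ Aᶜ, ‖w i t‖ < r2 := by
    intro i hi
    rw [Finset.mem_compl, hA, Finset.mem_filter] at hi
    push Not at hi
    have h5 := hi (Finset.mem_univ i)
    by_contra h6
    push Not at h6
    have h7 : ‖z i t * w i t‖ < r1 * r2 := by
      have := h3.mul i
      rw [this]; exact h4
    rw [norm_mul] at h7
    have : r1 * r2 ≤ ‖z i t‖ * ‖w i t‖ := by gcongr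
    linarith
  have hc1 : A.card ≤ e1 := by
    have hinj : Set.InjOn (fun i => z i t) (A : Set (Fin (n + 1))) := by
      intro i _ j _ hij
      by_contra hne
      exact h3.inj i j hne hij
    rw [← Finset.card_image_of_injOn hinj]
    refine h1 _ (phi f (z 0 t)) ?_
    intro u hu
    obtain ⟨i, hi, rfl⟩ := Finset.mem_image.mp hu
    exact ⟨(Finset.mem_filter.mp hi).2, h3.pz i⟩
  have hc2 : (Aᶜ).card ≤ e2 := by
    have hinj : Set.InjOn (fun i => w i t) ((Aᶜ : Finset (Fin (n + 1))) : Set (Fin (n + 1))) := by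
      intro i _ j _ hij
      by_contra hne
      exact h3.swap.inj i j hne hij
    rw [← Finset.card_image_of_injOn hinj]
    refine h2 _ (phi f (z 0 t)) ?_
    intro u hu
    obtain ⟨i, hi, rfl⟩ := Finset.mem_image.mp hu
    exact ⟨hAc i hi, h3.pw i⟩
  have := Finset.card_add_card_compl A
  rw [Fintype.card_fin] at this
  omega

end Pool.Agent.LibMaxMod
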