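import Pool.Agent.LibMaxMod.Transfer

set_option autoImplicit false
set_option maxHeartbeats 1000000

open Set Filter Complex
open scoped Topology

namespace Pool.Agent.LibMaxMod

/-- the logarithmic derivative `z F' / F` -/
noncomputable def phi (F : ℂ → ℂ) (z : ℂ) : ℂ := z * deriv F z / F z

/-- nonconstant entire functions that do not vanish at the origin -/
structure Ent (F : ℂ → ℂ) : Prop where
  diff : Differentiable ℂ F
  zero : F 0 ≠ 0
  nc : ∃ z, F z ≠ F 0

lemma punct_eventually {a : ℂ} {P : ℂ → Prop} (h : ∀ᶠ z in 𝓝[≠] a, P z) :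
    ∀ᶠ z in 𝓝[≠] a, ∀ᶠ w in 𝓝 z, P w := by
  have h1 := eventually_eventually_nhdsWithin.mpr h
  filter_upwards [h1, self_mem_nhdsWithin] with z hz hza
  rwa [IsOpen.nhdsWithin_eq isOpen_compl_singleton hza] at hz

namespace Ent

variable {F : ℂ → ℂ}

lemma analytic (hF : Ent F) (z : ℂ) : AnalyticAt ℂ F z := hF.diff.analyticAt z

lemma analytic_deriv (hF : Ent F) (z : ℂ) : AnalyticAt ℂ (deriv F) z := (hF.analytic z).deriv

lemma lin_ne (hF : Ent F) (c a : ℂ) : ¬ ∀ᶠ z in 𝓝 a, z * deriv F z - c * F z = 0 := by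
  intro h
  have han : AnalyticOnNhd ℂ (fun z => z * deriv F z - c * F z) univ := fun z _ =>
    (analyticAt_id.mul (hF.analytic_deriv z)).sub (analyticAt_const.mul (hF.analytic z))
  have h0 : AnalyticOnNhd ℂ (fun _ : ℂ => (0 : ℂ)) univ := fun z _ => analyticAt_const
  have heq := han.eqOn_of_preconnected_of_eventuallyEq h0 isPreconnected_univ (mem_univ a) h
  have hc : c = 0 := by
    have := heq (mem_univ (0 : ℂ))
    simp only [zero_mul, zero_sub, neg_eq_zero, mul_eq_zero] at this
    exact this.resolve_right hF.zero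
  have hd : ∀ z, deriv F z = 0 := by
    have h1 : ∀ z, z ≠ 0 → deriv F z = 0 := by
      intro z hz
      have := heq (mem_univ z)
      simp only [hc, zero_mul, sub_zero, mul_eq_zero] at this
      exact this.resolve_left hz
    intro z
    by_cases hz : z = 0
    · subst hz
      have h2 : ∀ᶠ z in 𝓝[≠] (0 : ℂ), deriv F z = 0 := by
        filter_upwards [self_mem_nhdsWithin] with z hz using h1 z hz
      exact ((hF.analytic_deriv 0).frequently_zero_iff_eventually_zero.mp h2.frequently).self_of_nhds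
    · exact h1 z hz
  obtain ⟨z, hz⟩ := hF.nc
  exact hz (is_const_of_deriv_eq_zero hF.diff hd z 0)

lemma phi_an (hF : Ent F) {a : ℂ} (ha : F a ≠ 0) : AnalyticAt ℂ (phi F) a :=
  (analyticAt_id.mul (hF.analytic_deriv a)).div (hF.analytic a) ha

lemma phi_nc (hF : Ent F) {a : ℂ} (ha : F a ≠ 0) (c : ℂ) : ¬ ∀ᶠ z in 𝓝 a, phi F z = c := by
  intro h
  refine hF.lin_ne c a ?_
  filter_upwards [h, (hF.analytic a).continuousAt.eventually_ne ha] with z hz hz2
  rw [← hz, phi]
  field_simp
  ring

lemma phi_inf (hF : Ent F) {a : ℂ} (ha : F a = 0) : ∃ A : ℂ → ℂ, AnalyticAt ℂ A a ∧ A a = 0 ∧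
    ∀ᶠ z in 𝓝[≠] a, F z ≠ 0 ∧ A z * phi F z = 1 := by
  have hnz : ¬ ∀ᶠ z in 𝓝 a, F z = 0 := by
    intro h
    have h1 : AnalyticOnNhd ℂ F univ := fun z _ => hF.analytic z
    have h0 : AnalyticOnNhd ℂ (fun _ : ℂ => (0 : ℂ)) univ := fun z _ => analyticAt_const
    have heq := h1.eqOn_of_preconnected_of_eventuallyEq h0 isPreconnected_univ (mem_univ a) h
    exact hF.zero (heq (mem_univ 0))
  have ha0 : a ≠ 0 := by rintro rfl; exact hF.zero ha
  obtain ⟨n, g, hg, hga, hgF⟩ := (hF.analytic a).exists_eventuallyEq_pow_smul_nonzero_iff.mpr hnz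
  have hn : n ≠ 0 := by
    rintro rfl
    have := hgF.self_of_nhds
    simp [ha] at this
    exact hga this.symm
  obtain ⟨m, rfl⟩ := Nat.exists_eq_succ_of_ne_zero hn
  set D : ℂ → ℂ := fun z => z * ((m + 1 : ℂ) * g z + (z - a) * deriv g z) with hD
  have hDan : AnalyticAt ℂ D a := analyticAt_id.mul ((analyticAt_const.mul hg).add
    ((analyticAt_id.sub analyticAt_const).mul hg.deriv))
  have hDa : D a ≠ 0 := by
    simp only [hD, sub_self, zero_mul, add_zero]
    exact mul_ne_zero ha0 (mul_ne_zero (by exact_mod_cast Nat.succ_ne_zero m) hga)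
  refine ⟨fun z => (z - a) * g z / D z, ?_, by simp, ?_⟩
  · exact ((analyticAt_id.sub analyticAt_const).mul hg).div hDan hDa
  · have hFd : ∀ᶠ z in 𝓝 a, deriv F z = (m + 1 : ℂ) * (z - a) ^ m * g z + (z - a) ^ (m + 1) * deriv g z := by
      have h1 := eventually_eventually_nhds.mpr hgF
      filter_upwards [h1, hg.eventually_analyticAt] with z hz hgz
      have h2 : deriv F z = deriv (fun w => (w - a) ^ (m + 1) * g w) z := by
        refine Filter.EventuallyEq.deriv_eq ?_
        filter_upwards [hz] with w hw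
        simpa using hw
      have h3 : HasDerivAt (fun w => (w - a) ^ (m + 1) * g w)
          (((m + 1 : ℕ) : ℂ) * (z - a) ^ (m + 1 - 1) * 1 * g z + (z - a) ^ (m + 1) * deriv g z) z :=
        (((hasDerivAt_id z).sub_const a).pow (m + 1)).mul hgz.differentiableAt.hasDerivAt
      rw [h2, h3.deriv]
      push_cast
      simp
    have e1 : ∀ᶠ z in 𝓝[≠] a, F z = (z - a) ^ (m + 1) * g z :=
      (hgF.filter_mono nhdsWithin_le_nhds).mono (fun z hz => by simpa using hz)
    have e2 : ∀ᶠ z in 𝓝[≠] a, g z ≠ 0 :=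
      (hg.continuousAt.eventually_ne hga).filter_mono nhdsWithin_le_nhds
    have e3 : ∀ᶠ z in 𝓝[≠] a, D z ≠ 0 :=
      (hDan.continuousAt.eventually_ne hDa).filter_mono nhdsWithin_le_nhds
    filter_upwards [e1, e2, e3, hFd.filter_mono nhdsWithin_le_nhds, self_mem_nhdsWithin]
      with z h1 h2 h3 h4 h5
    have h5' : z - a ≠ 0 := sub_ne_zero.mpr h5
    refine ⟨?_, ?_⟩
    · rw [h1]; exact mul_ne_zero (pow_ne_zero _ h5') h2
    · rw [phi, h1, h4]
      have h6 : z * ((m + 1 : ℂ) * (z - a) ^ m * g z + (z - a) ^ (m + 1) * deriv g z)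
          = (z - a) ^ m * D z := by simp only [hD]; ring
      rw [h6]
      field_simp
      ring

end Ent

/-- the coordinate on the Riemann sphere around a point (`none` is infinity) -/
noncomputable def chart (c : Option ℂ) (x : ℂ) : ℂ :=
  match c with
  | some c => x - c
  | none => x⁻¹

lemma chart_inj (c : Option ℂ) : Function.Injective (chart c) := by
  intro x y h
  cases c with
  | none => exact inv_injective h
  | some c => exact sub_left_injective h

lemma chart_an {c : Option ℂ} {x : ℂ → ℂ} (hx : AnalyticAt ℂ x 0) (hd : deriv x 0 ≠ 0)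
    (h0 : chart c (x 0) ≠ 0) :
    AnalyticAt ℂ (fun t => chart c (x t)) 0 ∧ deriv (fun t => chart c (x t)) 0 ≠ 0 := by
  cases c with
  | none =>
    have hx0 : x 0 ≠ 0 := by
      intro h; apply h0; simp [chart, h]
    refine ⟨hx.inv hx0, ?_⟩
    have h1 : HasDerivAt (fun t => chart none (x t)) (-deriv x 0 / x 0 ^ 2) 0 :=
      hx.differentiableAt.hasDerivAt.inv hx0
    rw [h1.deriv]
    exact div_ne_zero (neg_ne_zero.mpr hd) (pow_ne_zero _ hx0)
  | some c =>
    refine ⟨hx.sub analyticAt_const, ?_⟩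
    have h1 : HasDerivAt (fun t => chart (some c) (x t)) (deriv x 0) 0 :=
      hx.differentiableAt.hasDerivAt.sub_const c
    rw [h1.deriv]
    exact hd

/-- local structure of `phi F` along a convergent family -/
lemma Ent.chart_germ {F : ℂ → ℂ} (hF : Ent F) {ι : Type} {l : Filter ι} [l.NeBot] {p : ι → ℂ} {a : ℂ}
    {c : Option ℂ} (hp : Tendsto p l (𝓝 a)) (hne : ∀ᶠ k in l, F (p k) ≠ 0)
    (hx : Tendsto (fun k => chart c (phi F (p k))) l (𝓝 0))
    (hx0 : ∀ᶠ k in l, chart c (phi F (p k)) ≠ 0) :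
    ∃ A : ℂ → ℂ, AnalyticAt ℂ A a ∧ A a = 0 ∧ (¬ ∀ᶠ z in 𝓝 a, A z = 0) ∧
      (∀ᶠ z in 𝓝[≠] a, F z ≠ 0 ∧ A z = chart c (phi F z)) ∧ ∀ᶠ k in l, p k ≠ a := by
  by_cases ha : F a = 0
  · obtain ⟨A, hA, hA0, hAz⟩ := hF.phi_inf ha
    have hpa : ∀ᶠ k in l, p k ≠ a := by
      filter_upwards [hne] with k hk h
      rw [h] at hk; exact hk ha
    have hp' : Tendsto p l (𝓝[≠] a) := tendsto_nhdsWithin_iff.mpr ⟨hp, hpa⟩
    have hAp : ∀ᶠ k in l, A (p k) * phi F (p k) = 1 := (hp'.eventually hAz).mono fun k hk => hk.2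
    have hAt : Tendsto (fun k => A (p k)) l (𝓝 0) := by
      have := hA.continuousAt.tendsto.comp hp
      rwa [hA0] at this
    cases c with
    | none =>
      refine ⟨A, hA, hA0, ?_, ?_, hpa⟩
      · intro h
        have h1 := (h.filter_mono (nhdsWithin_le_nhds (s := {a}ᶜ))).and hAz
        obtain ⟨z, hz1, hz2⟩ := h1.exists
        rw [hz1] at hz2
        simp at hz2
      · filter_upwards [hAz] with z hz
        refine ⟨hz.1, ?_⟩
        simp only [chart]
        exact eq_inv_of_mul_eq_one_left hz.2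
    | some c =>
      exfalso
      have h1 : Tendsto (fun k => phi F (p k)) l (𝓝 c) := by
        have := hx.add_const c
        simpa [chart] using this
      have h2 := hAt.mul h1
      rw [zero_mul] at h2
      have h3 : Tendsto (fun k => A (p k) * phi F (p k)) l (𝓝 1) :=
        tendsto_const_nhds.congr' (hAp.mono fun k hk => hk.symm)
      exact zero_ne_one (tendsto_nhds_unique h2 h3)
  · have hc := (hF.phi_an ha).continuousAt.tendsto.comp hp
    cases c with
    | none =>
      exfalso
      have h2 := hc.mul hx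
      rw [mul_zero] at h2
      have h3 : Tendsto (fun k => (phi F ∘ p) k * chart none (phi F (p k))) l (𝓝 1) := by
        refine tendsto_const_nhds.congr' ?_
        filter_upwards [hx0] with k hk
        simp only [chart, Function.comp] at hk ⊢
        rw [mul_inv_cancel₀]
        intro h; rw [h] at hk; simp at hk
      exact zero_ne_one (tendsto_nhds_unique h2 h3)
    | some c =>
      have h1 : Tendsto (fun k => phi F (p k)) l (𝓝 c) := by
        have := hx.add_const c
        simpa [chart] using this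
      have hac : phi F a = c := tendsto_nhds_unique hc h1
      refine ⟨fun z => phi F z - c, (hF.phi_an ha).sub analyticAt_const, by simp [hac], ?_, ?_, ?_⟩
      · intro h
        exact hF.phi_nc ha c (h.mono fun z hz => sub_eq_zero.mp hz)
      · filter_upwards [((hF.analytic a).continuousAt.eventually_ne ha).filter_mono nhdsWithin_le_nhds]
          with z hz
        exact ⟨hz, rfl⟩
      · filter_upwards [hx0] with k hk h
        apply hk
        rw [h, hac]
        simp [chart]

end Pool.Agent.LibMaxMod
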