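import Pool.Agent.LibMaxMod.Tie

set_option autoImplicit false
set_option maxHeartbeats 1000000

open Set Filter Complex
open scoped Topology

namespace Pool.Agent.LibMaxMod

lemma preconnected_punct_ball {δ : ℝ} (hδ : 0 < δ) :
    IsPreconnected (Metric.ball (0 : ℂ) δ \ {0}) := by
  have h1 : Metric.ball (0 : ℂ) δ \ {0} = Complex.exp '' {s : ℂ | s.re < Real.log δ} := by
    ext z
    simp only [Set.mem_sdiff, Metric.mem_ball, dist_zero_right, mem_singleton_iff, mem_image,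
      mem_ofPred_eq]
    constructor
    · rintro ⟨h1, h2⟩
      refine ⟨Complex.log z, ?_, Complex.exp_log h2⟩
      rw [Complex.log_re]
      exact Real.log_lt_log (norm_pos_iff.mpr h2) h1
    · rintro ⟨s, hs, rfl⟩
      refine ⟨?_, Complex.exp_ne_zero s⟩
      rw [Complex.norm_exp]
      rwa [← Real.lt_log_iff_exp_lt hδ]
  rw [h1]
  refine IsPreconnected.image ?_ _ Complex.continuous_exp.continuousOn
  exact (convex_halfSpace_re_lt _).isPreconnected

/-- the second factor of a pebble cannot tend to zero -/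
lemma no_escape {f g : ℂ → ℂ} (hf : Ent f) (hg : Ent g) {n : ℕ} {ι : Type} (U : Ultrafilter ι)
    {z w : ι → Fin (n + 1) → ℂ → ℂ} (hreg : ∀ᶠ k in (U : Filter ι), RegTie f g n (z k) (w k))
    (hx0 : ∀ᶠ k in (U : Filter ι), phi f (z k 0 0) ≠ 0) {a b : ℂ}
    (ha : a ≠ 0) (hb : b ≠ 0) (hz : Tendsto (fun k => z k 0 0) U (𝓝 a))
    (hw : Tendsto (fun k => w k 0 0) U (𝓝 b)) (i : Fin (n + 1))
    (hi : Tendsto (fun k => w k i 0) U (𝓝 0)) : False := by
  set F : Fin 3 → ℂ → ℂ := ![f, g, g] with hFdef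
  have hF : ∀ j, Ent (F j) := by
    intro j; fin_cases j
    · exact hf
    · exact hg
    · exact hg
  set p : ι → Fin 3 → ℂ → ℂ := fun k => ![z k 0, w k 0, w k i] with hp
  have hreg' : ∀ᶠ k in (U : Filter ι), RegG F (p k) (fun t => phi f (z k 0 t)) := by
    filter_upwards [hreg] with k hk
    refine ⟨?_, ?_, hk.xd, ?_, ?_⟩
    · intro j; fin_cases j
      · exact hk.zan 0
      · exact hk.wan 0
      · exact hk.wan i
    · exact AnalyticAt.comp (g := phi f) (f := z k 0) (hf.phi_an (hk.rel.self_of_nhds.fz 0)) (hk.zan 0)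
    · intro j; fin_cases j
      · exact hk.rel.mono fun t ht => ht.fz 0
      · exact hk.rel.mono fun t ht => ht.gw 0
      · exact hk.rel.mono fun t ht => ht.gw i
    · intro j; fin_cases j
      · exact Eventually.of_forall fun t => rfl
      · exact hk.rel.mono fun t ht => ht.pw 0
      · exact hk.rel.mono fun t ht => ht.pw i
  have hlim : ∀ j, Tendsto (fun k => p k j 0) U (𝓝 ((![a, b, 0] : Fin 3 → ℂ) j)) := by
    intro j; fin_cases j
    · exact hz
    · exact hw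
    · exact hi
  have hx : Tendsto (fun k => chart (some 0) ((fun t => phi f (z k 0 t)) 0)) U (𝓝 0) := by
    have h1 : Tendsto (fun k => phi g (w k i 0)) U (𝓝 (phi g 0)) :=
      (hg.phi_an hg.zero).continuousAt.tendsto.comp hi
    have h2 : phi g 0 = 0 := by simp [phi]
    rw [h2] at h1
    refine h1.congr' ?_
    filter_upwards [hreg] with k hk
    simp only [chart, sub_zero]
    exact hk.rel.self_of_nhds.pw i
  have hx0' : ∀ᶠ k in (U : Filter ι), chart (some 0) ((fun t => phi f (z k 0 t)) 0) ≠ 0 := by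
    filter_upwards [hx0] with k hk
    simpa [chart] using hk
  obtain ⟨L, zh, hL, hzan, hz0, hzF, hV⟩ := limit_germ U F hF p (fun k t => phi f (z k 0 t)) hreg'
    ![a, b, 0] hlim (some 0) hx hx0'
  have hz00 : zh 0 0 = a := hz0 0
  have hz10 : zh 1 0 = b := hz0 1
  have hz20 : zh 2 0 = 0 := hz0 2
  have hz2ne : ∀ᶠ t in 𝓝[≠] (0 : ℂ), zh 2 t ≠ 0 := (hzF 2).mono fun t ht => ht.1
  -- a good ball
  obtain ⟨δ, hδ, hball⟩ := Metric.eventually_nhds_iff_ball.mp
    (((hzan 0).eventually_analyticAt.and ((hzan 1).eventually_analyticAt.and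
      (hzan 2).eventually_analyticAt)).and (eventually_nhdsWithin_iff.mp hz2ne))
  set E : ℂ → ℂ := fun t => f (zh 0 t * zh 1 t / zh 2 t) * g (zh 2 t) - f (zh 0 t) * g (zh 1 t) with hE
  have hEan : AnalyticOnNhd ℂ E (Metric.ball (0 : ℂ) δ \ {0}) := by
    intro t ht
    obtain ⟨⟨h0, h1, h2⟩, h3⟩ := hball t ht.1
    have h4 : AnalyticAt ℂ (fun t => zh 0 t * zh 1 t / zh 2 t) t := (h0.mul h1).div h2 (h3 ht.2)
    have e1 : AnalyticAt ℂ (fun t => f (zh 0 t * zh 1 t / zh 2 t)) t :=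
      AnalyticAt.comp (g := f) (f := fun t => zh 0 t * zh 1 t / zh 2 t) (hf.analytic _) h4
    have e2 : AnalyticAt ℂ (fun t => g (zh 2 t)) t :=
      AnalyticAt.comp (g := g) (f := fun t => zh 2 t) (hg.analytic _) h2
    have e3 : AnalyticAt ℂ (fun t => f (zh 0 t)) t :=
      AnalyticAt.comp (g := f) (f := fun t => zh 0 t) (hf.analytic _) h0
    have e4 : AnalyticAt ℂ (fun t => g (zh 1 t)) t :=
      AnalyticAt.comp (g := g) (f := fun t => zh 1 t) (hg.analytic _) h1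
    exact (e1.mul e2).sub (e3.mul e4)
  have hEzero : ∀ t ∈ Metric.ball (0 : ℂ) δ \ {0}, E t = 0 := by
    obtain ⟨k, ⟨s, hsV, hs0, ψ, hψ, hψz⟩, hk⟩ := ((hV _ (Metric.ball_mem_nhds 0 hδ)).and hreg).exists
    have hloc : ∀ᶠ t in 𝓝 s, E t = 0 := by
      have hψt : Tendsto ψ (𝓝 s) (𝓝 0) := hψ.le
      filter_upwards [hψz 0, hψz 1, hψz 2, hψt.eventually hk.rel] with t h0 h1 h2 h3
      have h0' : zh 0 t = z k 0 (ψ t) := h0
      have h1' : zh 1 t = w k 0 (ψ t) := h1
      have h2' : zh 2 t = w k i (ψ t) := h2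
      simp only [hE, h0', h1', h2']
      have h4 := h3.mul i
      have h5 := h3.val i
      have h6 := h3.w0 i
      rw [← h4, mul_div_assoc, div_self h6, mul_one, h5, sub_self]
    have h0 : AnalyticOnNhd ℂ (fun _ : ℂ => (0 : ℂ)) (Metric.ball (0 : ℂ) δ \ {0}) :=
      fun z _ => analyticAt_const
    exact hEan.eqOn_of_preconnected_of_eventuallyEq h0 (preconnected_punct_ball hδ) ⟨hsV, hs0⟩ hloc
  -- boundedness of f near infinity
  have hgb : g (zh 2 0) ≠ 0 := by rw [hz20]; exact hg.zero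
  have hcont : ContinuousAt (fun t => f (zh 0 t) * g (zh 1 t) / g (zh 2 t)) 0 := by
    refine ContinuousAt.div (ContinuousAt.mul ?_ ?_) ?_ hgb
    · exact ContinuousAt.comp (g := f) hf.diff.continuous.continuousAt (hzan 0).continuousAt
    · exact ContinuousAt.comp (g := g) hg.diff.continuous.continuousAt (hzan 1).continuousAt
    · exact ContinuousAt.comp (g := g) hg.diff.continuous.continuousAt (hzan 2).continuousAt
  obtain ⟨C, hC⟩ : ∃ C : ℝ, ∀ᶠ t in 𝓝 (0 : ℂ), ‖f (zh 0 t) * g (zh 1 t) / g (zh 2 t)‖ ≤ C := by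
    refine ⟨‖f (zh 0 0) * g (zh 1 0) / g (zh 2 0)‖ + 1, ?_⟩
    have := hcont.norm.tendsto.eventually (Iic_mem_nhds (lt_add_one _))
    exact this
  set κ : ℂ → ℂ := fun t => zh 2 t / (zh 0 t * zh 1 t) with hκ
  have hab : zh 0 0 * zh 1 0 ≠ 0 := by rw [hz00, hz10]; exact mul_ne_zero ha hb
  have hκan : AnalyticAt ℂ κ 0 := (hzan 2).div ((hzan 0).mul (hzan 1)) hab
  have hκ0 : κ 0 = 0 := by simp [hκ, hz20]
  have habt : ∀ᶠ t in 𝓝 (0 : ℂ), zh 0 t * zh 1 t ≠ 0 :=
    ((hzan 0).continuousAt.mul (hzan 1).continuousAt).eventually_ne hab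
  have hκne : ∀ᶠ t in 𝓝[≠] (0 : ℂ), κ t ≠ 0 := by
    filter_upwards [hz2ne, habt.filter_mono nhdsWithin_le_nhds] with t h1 h2
    exact div_ne_zero h1 h2
  have hκopen : 𝓝 (κ 0) ≤ map κ (𝓝 0) := by
    rcases hκan.eventually_constant_or_nhds_le_map_nhds with h | h
    · exfalso
      obtain ⟨t, h1, h2⟩ := (hκne.and (h.filter_mono nhdsWithin_le_nhds)).exists
      rw [hκ0] at h2
      exact h1 h2
    · exact h
  have hS : {x : ℂ | x ≠ 0 → ‖f (1 / x)‖ ≤ C} ∈ map κ (𝓝 (0 : ℂ)) := by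
    show ∀ᶠ t in 𝓝 (0 : ℂ), κ t ≠ 0 → ‖f (1 / κ t)‖ ≤ C
    have hgt : ∀ᶠ t in 𝓝 (0 : ℂ), g (zh 2 t) ≠ 0 :=
      (ContinuousAt.comp (g := g) hg.diff.continuous.continuousAt
        (hzan 2).continuousAt).eventually_ne hgb
    filter_upwards [hC, hgt, Metric.ball_mem_nhds (0 : ℂ) hδ] with t h1 h2 h3 h4
    have ht0 : t ≠ 0 := by rintro rfl; exact h4 hκ0
    have h5 := hEzero t ⟨h3, ht0⟩
    have h6 : 1 / κ t = zh 0 t * zh 1 t / zh 2 t := by simp [hκ]
    rw [h6]
    have h7 : f (zh 0 t * zh 1 t / zh 2 t) = f (zh 0 t) * g (zh 1 t) / g (zh 2 t) := by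
      rw [eq_div_iff h2]
      exact sub_eq_zero.mp h5
    rw [h7]
    exact h1
  have hS' := hκopen hS
  rw [hκ0] at hS'
  obtain ⟨ε, hε, hball2⟩ := Metric.mem_nhds_iff.mp hS'
  obtain ⟨C', hC'⟩ := (isCompact_closedBall (0 : ℂ) (2 / ε)).exists_bound_of_continuousOn
    hf.diff.continuous.continuousOn
  have hbdd : Bornology.IsBounded (range f) := by
    refine (isBounded_iff_forall_norm_le).mpr ⟨max C C', ?_⟩
    rintro _ ⟨x, rfl⟩
    by_cases hx : x ∈ Metric.closedBall (0 : ℂ) (2 / ε)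
    · exact (hC' x hx).trans (le_max_right _ _)
    · rw [Metric.mem_closedBall, dist_zero_right, not_le] at hx
      have hxpos : 0 < ‖x‖ := lt_trans (by positivity) hx
      have hx0 : x ≠ 0 := norm_pos_iff.mp hxpos
      have h1 : 1 / x ∈ Metric.ball (0 : ℂ) ε := by
        rw [Metric.mem_ball, dist_zero_right, norm_div, norm_one, div_lt_iff₀ hxpos]
        rw [div_lt_iff₀ hε] at hx
        linarith [mul_comm ε ‖x‖]
      have h2 := hball2 h1 (one_div_ne_zero hx0)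
      rw [one_div_one_div] at h2
      exact h2.trans (le_max_left _ _)
  obtain ⟨x, hx⟩ := hf.nc
  exact hx (hf.diff.apply_eq_apply_of_bounded hbdd x 0)

end Pool.Agent.LibMaxMod
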