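import Mathlib

set_option autoImplicit false
set_option maxHeartbeats 1000000

open Set Filter Complex
open scoped Topology

namespace Pool.Agent.LibMaxMod

/-- abstract data for the maximum principle -/
structure MP (W : Set (ℂ × ℂ)) (η : ℝ) : Prop where
  pos : 0 < η
  germ : ∀ P ∈ W, ∃ a b : ℂ → ℂ, AnalyticAt ℂ a 0 ∧ AnalyticAt ℂ b 0 ∧ a 0 = P.1 ∧ b 0 = P.2 ∧
    (∀ᶠ t in 𝓝 (0 : ℂ), (a t, b t) ∈ W) ∧ (¬ ∀ᶠ t in 𝓝 (0 : ℂ), a t = a 0) ∧
    (¬ ∀ᶠ t in 𝓝 (0 : ℂ), a t * b t = a 0 * b 0)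
  bd : ∀ P ∈ W, P.1 ≠ 0 ∧ P.2 ≠ 0 ∧ η ≤ ‖P.1 * P.2‖
  cl : ∀ (P : ℕ → ℂ × ℂ) (Q : ℂ × ℂ), (∀ k, P k ∈ W) → Tendsto P atTop (𝓝 Q) → Q.1 ≠ 0 → Q.2 ≠ 0 →
    Q ∈ W

noncomputable def kap (a : ℂ) : ℝ := min ‖a‖ ‖a‖⁻¹

noncomputable def qq (P : ℂ × ℂ) : ℝ := ‖P.1 * P.2‖⁻¹

noncomputable def TT (m : ℕ) (P : ℂ × ℂ) : ℝ := qq P ^ m * kap P.1

lemma kap_pos {a : ℂ} (ha : a ≠ 0) : 0 < kap a := by
  have := norm_pos_iff.mpr ha
  exact lt_min this (inv_pos.mpr this)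

lemma kap_le_one (a : ℂ) : kap a ≤ 1 := by
  rcases le_total ‖a‖ 1 with h | h
  · exact (min_le_left _ _).trans h
  · exact (min_le_right _ _).trans (inv_le_one_of_one_le₀ h)

lemma kap_eq_one {a : ℂ} (ha : ‖a‖ = 1) : kap a = 1 := by simp [kap, ha]

namespace MP

variable {W : Set (ℂ × ℂ)} {η : ℝ}

lemma compact (h : MP W η) {r C : ℝ} (hr : 0 < r) :
    IsCompact {P : ℂ × ℂ | P ∈ W ∧ r ≤ ‖P.1‖ ∧ ‖P.1‖ ≤ r⁻¹ ∧ ‖P.1 * P.2‖ ≤ C} := by
  refine Metric.isCompact_of_isClosed_isBounded ?_ ?_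
  · rw [← isSeqClosed_iff_isClosed]
    intro P Q hP hlim
    have l1 : Tendsto (fun k => ‖(P k).1‖) atTop (𝓝 ‖Q.1‖) :=
      ((continuous_fst.tendsto Q).comp hlim).norm
    have l2 : Tendsto (fun k => ‖(P k).1 * (P k).2‖) atTop (𝓝 ‖Q.1 * Q.2‖) :=
      (((continuous_fst.tendsto Q).comp hlim).mul ((continuous_snd.tendsto Q).comp hlim)).norm
    have e1 : r ≤ ‖Q.1‖ := ge_of_tendsto' l1 fun k => (hP k).2.1
    have e2 : ‖Q.1‖ ≤ r⁻¹ := le_of_tendsto' l1 fun k => (hP k).2.2.1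
    have e3 : ‖Q.1 * Q.2‖ ≤ C := le_of_tendsto' l2 fun k => (hP k).2.2.2
    have e4 : η ≤ ‖Q.1 * Q.2‖ := ge_of_tendsto' l2 fun k => (h.bd _ (hP k).1).2.2
    have hne : Q.1 * Q.2 ≠ 0 := norm_pos_iff.mp (h.pos.trans_le e4)
    exact ⟨h.cl P Q (fun k => (hP k).1) hlim (left_ne_zero_of_mul hne) (right_ne_zero_of_mul hne),
      e1, e2, e3⟩
  · refine isBounded_iff_forall_norm_le.mpr ⟨max r⁻¹ (C * r⁻¹), ?_⟩
    rintro P ⟨_, h1, h2, h3⟩
    rw [Prod.norm_def]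
    refine max_le_max h2 ?_
    have hpos : 0 < ‖P.1‖ := hr.trans_le h1
    rw [norm_mul] at h3
    have hC : 0 ≤ C := le_trans (by positivity) h3
    have h4 : ‖P.2‖ ≤ C / ‖P.1‖ := by
      rw [le_div_iff₀ hpos]; linarith [mul_comm ‖P.1‖ ‖P.2‖]
    refine h4.trans ?_
    rw [div_eq_mul_inv]
    gcongr

lemma qq_pos (h : MP W η) {P : ℂ × ℂ} (hP : P ∈ W) : 0 < qq P :=
  inv_pos.mpr (norm_pos_iff.mpr (mul_ne_zero (h.bd P hP).1 (h.bd P hP).2.1))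

lemma qq_le (h : MP W η) {P : ℂ × ℂ} (hP : P ∈ W) : qq P ≤ η⁻¹ :=
  inv_anti₀ h.pos (h.bd P hP).2.2

lemma TT_pos (h : MP W η) {P : ℂ × ℂ} (hP : P ∈ W) (m : ℕ) : 0 < TT m P :=
  mul_pos (pow_pos (h.qq_pos hP) m) (kap_pos (h.bd P hP).1)

lemma contOn (h : MP W η) {K : Set (ℂ × ℂ)} (hK : K ⊆ W) (m : ℕ) : ContinuousOn (TT m) K := by
  have h1 : ContinuousOn (fun P : ℂ × ℂ => ‖P.1 * P.2‖⁻¹) K :=
    ContinuousOn.inv₀ (by fun_prop) fun P hP =>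
      (norm_pos_iff.mpr (mul_ne_zero (h.bd P (hK hP)).1 (h.bd P (hK hP)).2.1)).ne'
  have h2 : ContinuousOn (fun P : ℂ × ℂ => kap P.1) K :=
    ContinuousOn.inf (by fun_prop) (ContinuousOn.inv₀ (by fun_prop) fun P hP =>
      (norm_pos_iff.mpr (h.bd P (hK hP)).1).ne')
  exact (h1.pow m).mul h2

lemma contOn_kap (h : MP W η) {K : Set (ℂ × ℂ)} (hK : K ⊆ W) :
    ContinuousOn (fun P : ℂ × ℂ => kap P.1) K :=
  ContinuousOn.inf (by fun_prop) (ContinuousOn.inv₀ (by fun_prop) fun P hP =>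
      (norm_pos_iff.mpr (h.bd P (hK hP)).1).ne')

/-- a maximiser of `TT m` with largest `kap` -/
lemma exists_best (h : MP W η) (hW : W.Nonempty) {m : ℕ} (hm : 1 ≤ m) : ∃ P ∈ W,
    (∀ Q ∈ W, TT m Q ≤ TT m P) ∧ ∀ Q ∈ W, TT m Q = TT m P → kap Q.1 ≤ kap P.1 := by
  obtain ⟨P0, hP0⟩ := hW
  set t := TT m P0 with ht
  have htpos : 0 < t := h.TT_pos hP0 m
  set r := t * η ^ m with hr
  have hrpos : 0 < r := mul_pos htpos (pow_pos h.pos m)
  set K := {P : ℂ × ℂ | P ∈ W ∧ r ≤ ‖P.1‖ ∧ ‖P.1‖ ≤ r⁻¹ ∧ ‖P.1 * P.2‖ ≤ max 1 t⁻¹} with hK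
  have hKc : IsCompact K := h.compact hrpos
  have hKW : K ⊆ W := fun P hP => hP.1
  have hin : ∀ P ∈ W, t ≤ TT m P → P ∈ K := by
    intro P hP htP
    have hq := h.qq_pos hP
    have hk := kap_pos (h.bd P hP).1
    have hqle := h.qq_le hP
    have h1 : r ≤ kap P.1 := by
      have e1 : qq P ^ m ≤ (η⁻¹) ^ m := by gcongr
      have e2 : t ≤ (η⁻¹) ^ m * kap P.1 := htP.trans (by unfold TT; gcongr)
      rw [hr]
      calc t * η ^ m ≤ ((η⁻¹) ^ m * kap P.1) * η ^ m := by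
            have := pow_pos h.pos m
            gcongr
        _ = kap P.1 := by
            have := (pow_pos h.pos m).ne'
            rw [inv_pow]; field_simp
    have h2 : t ≤ qq P ^ m := by
      refine htP.trans ?_
      unfold TT
      exact mul_le_of_le_one_right (by positivity) (kap_le_one _)
    refine ⟨hP, h1.trans (min_le_left _ _), ?_, ?_⟩
    · have h3 : r ≤ ‖P.1‖⁻¹ := h1.trans (min_le_right _ _)
      have h4 : 0 < ‖P.1‖ := norm_pos_iff.mpr (h.bd P hP).1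
      rw [le_inv_comm₀ h4 hrpos]
      exact h3
    · by_contra hlt
      push Not at hlt
      have h5 : 1 < ‖P.1 * P.2‖ := (le_max_left _ _).trans_lt hlt
      have h6 : t⁻¹ < ‖P.1 * P.2‖ := (le_max_right _ _).trans_lt hlt
      have h7 : qq P ^ m ≤ qq P := by
        have hq1 : qq P ≤ 1 := inv_le_one_of_one_le₀ h5.le
        calc qq P ^ m ≤ qq P ^ 1 := pow_le_pow_of_le_one hq.le hq1 hm
          _ = qq P := pow_one _
      have h8 : qq P < t := by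
        unfold qq
        rw [inv_lt_comm₀ (lt_trans one_pos h5) htpos]
        exact h6
      linarith
  have hP0K : P0 ∈ K := hin P0 hP0 le_rfl
  obtain ⟨P1, hP1, hmax⟩ := hKc.exists_isMaxOn ⟨P0, hP0K⟩ (h.contOn hKW m)
  have hmaxW : ∀ Q ∈ W, TT m Q ≤ TT m P1 := by
    intro Q hQ
    by_cases hq : t ≤ TT m Q
    · exact hmax (hin Q hQ hq)
    · push Not at hq
      exact hq.le.trans (hmax hP0K)
  have hMc : IsCompact (K ∩ TT m ⁻¹' {TT m P1}) := by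
    refine hKc.of_isClosed_subset ?_ inter_subset_left
    exact (h.contOn hKW m).preimage_isClosed_of_isClosed hKc.isClosed isClosed_singleton
  obtain ⟨P2, hP2, hmax2⟩ := hMc.exists_isMaxOn ⟨P1, hP1, rfl⟩
    (h.contOn_kap (inter_subset_left.trans hKW))
  have hT2 : TT m P2 = TT m P1 := hP2.2
  refine ⟨P2, hP2.1.1, fun Q hQ => by rw [hT2]; exact hmaxW Q hQ, fun Q hQ hTQ => ?_⟩
  refine hmax2 ⟨hin Q hQ ?_, by rw [mem_preimage, hTQ, hT2]; rfl⟩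
  rw [hTQ, hT2]
  exact hmax hP0K

lemma local_const {G : ℂ → ℂ} (hG : AnalyticAt ℂ G 0) (hmax : ∀ᶠ t in 𝓝 (0 : ℂ), ‖G t‖ ≤ ‖G 0‖) :
    ∀ᶠ t in 𝓝 (0 : ℂ), G t = G 0 := by
  refine Complex.eventually_eq_of_isLocalMax_norm ?_ hmax
  exact hG.eventually_analyticAt.mono fun t ht => ht.differentiableAt

lemma best_norm (h : MP W η) {m : ℕ} {P : ℂ × ℂ} (hP : P ∈ W)
    (hmax : ∀ Q ∈ W, TT m Q ≤ TT m P) (hbest : ∀ Q ∈ W, TT m Q = TT m P → kap Q.1 ≤ kap P.1) :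
    ‖P.1‖ = 1 := by
  obtain ⟨a, b, ha, hb, ha0, hb0, hW, hanc, habnc⟩ := h.germ P hP
  have hP1 : P.1 ≠ 0 := (h.bd P hP).1
  have hP2 : P.2 ≠ 0 := (h.bd P hP).2.1
  have ha00 : a 0 ≠ 0 := by rw [ha0]; exact hP1
  have hb00 : b 0 ≠ 0 := by rw [hb0]; exact hP2
  have hP' : (a 0, b 0) = P := by rw [ha0, hb0]
  -- general step
  have key : ∀ A : ℂ → ℂ, AnalyticAt ℂ A 0 → (∀ᶠ t in 𝓝 (0 : ℂ), kap (a t) = ‖A t‖) →
      (∀ᶠ t in 𝓝 (0 : ℂ), A t = A 0) := by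
    intro A hA hAk
    have hG : AnalyticAt ℂ (fun t => ((a t * b t)⁻¹) ^ m * A t) 0 :=
      (((ha.mul hb).inv (mul_ne_zero ha00 hb00)).pow m).mul hA
    have hnG : ∀ᶠ t in 𝓝 (0 : ℂ), ‖((a t * b t)⁻¹) ^ m * A t‖ = TT m (a t, b t) := by
      filter_upwards [hAk] with t ht
      rw [norm_mul, norm_pow, norm_inv, ← ht]
      rfl
    have hc := local_const hG (by
      filter_upwards [hnG, hW] with t h1 h2
      have h3 := hnG.self_of_nhds
      rw [h1, h3, hP']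
      exact hmax _ h2)
    have hle : ∀ᶠ t in 𝓝 (0 : ℂ), ‖A t‖ ≤ ‖A 0‖ := by
      filter_upwards [hc, hnG, hW, hAk] with t h1 h2 h3 h4
      have h5 := hnG.self_of_nhds
      have h6 : TT m (a t, b t) = TT m P := by
        rw [← hP', ← h2, ← h5]
        exact congrArg norm h1
      have h7 := hbest _ h3 h6
      rw [← h4, ← hAk.self_of_nhds, ha0]
      exact h7
    exact local_const hA hle
  rcases lt_trichotomy ‖P.1‖ 1 with hlt | heq | hgt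
  · exfalso
    apply hanc
    refine key a ha ?_
    have h1 : ‖a 0‖ < 1 := by rw [ha0]; exact hlt
    filter_upwards [ha.continuousAt.norm.tendsto.eventually (Iio_mem_nhds h1),
      ha.continuousAt.eventually_ne ha00] with t h2 h3
    have h4 : 0 < ‖a t‖ := norm_pos_iff.mpr h3
    exact min_eq_left (h2.le.trans ((one_le_inv₀ h4).mpr h2.le))
  · exact heq
  · exfalso
    apply hanc
    have h1 : 1 < ‖a 0‖ := by rw [ha0]; exact hgt
    have h5 := key (fun t => (a t)⁻¹) (ha.inv ha00) (by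
      filter_upwards [ha.continuousAt.norm.tendsto.eventually (Ioi_mem_nhds h1)] with t h2
      rw [norm_inv]
      exact min_eq_right ((inv_le_one_of_one_le₀ h2.le).trans h2.le))
    filter_upwards [h5] with t ht
    exact inv_injective ht

theorem empty (h : MP W η) : W = ∅ := by
  by_contra hne
  have hW : W.Nonempty := nonempty_iff_ne_empty.mpr hne
  have hsel : ∀ m : ℕ, ∃ P ∈ W, ‖P.1‖ = 1 ∧ ∀ Q ∈ W, TT (m + 1) Q ≤ TT (m + 1) P := by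
    intro m
    obtain ⟨P, hP, h1, h2⟩ := h.exists_best hW (m := m + 1) (by omega)
    exact ⟨P, hP, h.best_norm hP h1 h2, h1⟩
  choose P hP hPn hPmax using hsel
  have hTP : ∀ m k, TT k (P m) = qq (P m) ^ k := by
    intro m k
    rw [TT, kap_eq_one (hPn m), mul_one]
  set μ := qq (P 0) with hμ
  have hμpos : 0 < μ := h.qq_pos (hP 0)
  have h1 : ∀ m, qq (P m) ≤ μ := by
    intro m
    have := hPmax 0 (P m) (hP m)
    rw [hTP, hTP] at this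
    simpa using this
  have h2 : ∀ Q ∈ W, qq Q ≤ μ := by
    intro Q hQ
    by_contra hlt
    push Not at hlt
    have hk := kap_pos (h.bd Q hQ).1
    have hr1 : 1 < qq Q / μ := (one_lt_div hμpos).mpr hlt
    obtain ⟨m, hm⟩ := pow_unbounded_of_one_lt (kap Q.1)⁻¹ hr1
    have h3 : qq Q ^ (m + 1) * kap Q.1 ≤ μ ^ (m + 1) := by
      have h4 := hPmax m Q hQ
      rw [hTP] at h4
      exact h4.trans (pow_le_pow_left₀ (h.qq_pos (hP m)).le (h1 m) _)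
    have h5 : (kap Q.1)⁻¹ < (qq Q / μ) ^ (m + 1) :=
      hm.trans (pow_lt_pow_right₀ hr1 (Nat.lt_succ_self m))
    rw [div_pow, lt_div_iff₀ (by positivity), inv_mul_lt_iff₀ hk] at h5
    linarith [mul_comm (kap Q.1) (qq Q ^ (m + 1))]
  obtain ⟨a, b, ha, hb, ha0, hb0, haW, hanc, habnc⟩ := h.germ (P 0) (hP 0)
  have ha00 : a 0 ≠ 0 := by rw [ha0]; exact (h.bd _ (hP 0)).1
  have hb00 : b 0 ≠ 0 := by rw [hb0]; exact (h.bd _ (hP 0)).2.1
  apply habnc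
  have h3 := local_const (G := fun t => (a t * b t)⁻¹) ((ha.mul hb).inv (mul_ne_zero ha00 hb00)) (by
    filter_upwards [haW] with t ht
    have h4 := h2 _ ht
    have h5 : μ = ‖(a 0 * b 0)⁻¹‖ := by
      rw [hμ, qq, norm_inv, ha0, hb0]
    rw [← h5, norm_inv]
    exact h4)
  filter_upwards [h3] with t ht
  exact inv_injective ht

end MP

end Pool.Agent.LibMaxMod
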