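import Pool.Agent.LibMaxMod.Base
import Pool.Agent.LibMaxMod.Count
import Pool.Agent.LibMaxMod.MaxPrin

set_option autoImplicit false
set_option maxHeartbeats 1000000

open Set Filter Complex
open scoped Topology

namespace Pool.Agent.LibMaxMod

/-- no ties of large size: the algebraic-geometric core -/
theorem centres_empty {f g : ℂ → ℂ} (hf : Ent f) (hg : Ent g) :
    ∃ N : ℕ, ∀ n ≥ N, centres f g n = ∅ := by
  obtain ⟨η, hη, N, hN⟩ := eta_bound hf hg
  refine ⟨N, fun n hn => ?_⟩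
  refine MP.empty (η := η) ⟨hη, ?_, ?_, ?_⟩
  · rintro P ⟨z, w, ht, h1, h2⟩
    refine ⟨z 0, w 0, ht.zan 0, ht.wan 0, h1, h2, ?_, ht.z_nc hg, ht.nc⟩
    have h3 : ∀ᶠ s in 𝓝[≠] (0 : ℂ), (z 0 s, w 0 s) ∈ centres f g n := by
      filter_upwards [ht.regular hf hg 0] with s hs
      exact ⟨_, _, hs.1.tie, by simp, by simp⟩
    have h4 := eventually_nhdsWithin_iff.mp h3
    filter_upwards [h4] with s hs
    by_cases hs0 : s = 0
    · rw [hs0]
      exact ⟨z, w, ht, rfl, rfl⟩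
    · exact hs hs0
  · rintro P hP
    refine ⟨?_, ?_, hN n hn P hP⟩
    · obtain ⟨z, w, ht, h1, h2⟩ := hP
      rw [← h1]; exact ht.z0 0
    · obtain ⟨z, w, ht, h1, h2⟩ := hP
      rw [← h2]; exact ht.w0 0
  · intro P Q hP hlim h1 h2
    exact centres_closed hf hg hP hlim h1 h2

/-- the maximum modulus set on the circle of radius `r` -/
def maxSet (f : ℂ → ℂ) (r : ℝ) : Set ℂ := {z : ℂ | ‖z‖ = r ∧ ∀ w : ℂ, ‖w‖ = r → ‖f w‖ ≤ ‖f z‖}

/-- the conjugate function -/
noncomputable def cj (f : ℂ → ℂ) : ℂ → ℂ := (starRingEnd ℂ) ∘ f ∘ (starRingEnd ℂ)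

lemma cj_ent {f : ℂ → ℂ} (hf : Ent f) : Ent (cj f) where
  diff := fun z => by
    have := (hf.diff ((starRingEnd ℂ) z)).conj_conj
    simpa [cj] using this
  zero := by simpa [cj] using hf.zero
  nc := by
    obtain ⟨z, hz⟩ := hf.nc
    refine ⟨(starRingEnd ℂ) z, ?_⟩
    simp only [cj, Function.comp, Complex.conj_conj, map_zero]
    intro h
    exact hz ((starRingEnd ℂ).injective h)

lemma cj_deriv (f : ℂ → ℂ) : deriv (cj f) = cj (deriv f) := deriv_conj_conj

lemma cj_phi (f : ℂ → ℂ) (z : ℂ) : phi (cj f) z = (starRingEnd ℂ) (phi f ((starRingEnd ℂ) z)) := by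
  simp [phi, cj]

lemma cj_num (f : ℂ → ℂ) (z : ℂ) :
    Ent.num (cj f) z = (starRingEnd ℂ) (Ent.num f ((starRingEnd ℂ) z)) := by
  simp [Ent.num, cj]

lemma maxSet_ne_zero {f : ℂ → ℂ} (hf : Ent f) {r : ℝ} (hr : 0 < r) {z : ℂ} (hz : z ∈ maxSet f r) :
    f z ≠ 0 := by
  intro h
  apply hf.zero
  have h1 : ‖f 0‖ ≤ 0 := by
    refine Complex.norm_le_of_forall_mem_frontier_norm_le (U := Metric.ball (0 : ℂ) r)
      Metric.isBounded_ball (hf.diff.diffContOnCl) ?_ (subset_closure (Metric.mem_ball_self hr))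
    intro w hw
    rw [frontier_ball _ hr.ne'] at hw
    have := hz.2 w (by simpa using hw)
    rwa [h, norm_zero] at this
  exact norm_le_zero_iff.mp h1

lemma maxSet_real {f : ℂ → ℂ} (hf : Ent f) {r : ℝ} (hr : 0 < r) {z : ℂ} (hz : z ∈ maxSet f r) :
    (starRingEnd ℂ) (phi f z) = phi f z := by
  have hfz := maxSet_ne_zero hf hr hz
  have h1 : HasDerivAt (fun θ : ℝ => z * Complex.exp (θ * I)) (z * I) 0 := by
    have h2 : HasDerivAt (fun θ : ℝ => (θ : ℂ) * I) (1 * I) 0 :=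
      (Complex.ofRealCLM.hasDerivAt (x := 0)).mul_const I
    have h3 : HasDerivAt (fun θ : ℝ => Complex.exp (θ * I)) (Complex.exp ((0 : ℝ) * I) * (1 * I)) 0 :=
      h2.cexp
    have h4 := h3.const_mul z
    simpa using h4
  have h2 : HasDerivAt (fun θ : ℝ => f (z * Complex.exp (θ * I))) (deriv f z * (z * I)) 0 := by
    have h3 : HasDerivAt f (deriv f z) (z * Complex.exp ((0 : ℝ) * I)) := by
      simp only [ofReal_zero, zero_mul, Complex.exp_zero, mul_one]
      exact (hf.diff z).hasDerivAt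
    exact HasDerivAt.comp (h₂ := f) (h := fun θ : ℝ => z * Complex.exp (θ * I)) 0 h3 h1
  have h3 := h2.norm_sq
  have hmax : IsLocalMax (fun θ : ℝ => ‖f (z * Complex.exp (θ * I))‖ ^ 2) 0 := by
    refine Eventually.of_forall fun θ => ?_
    have h4 : ‖f (z * Complex.exp (θ * I))‖ ≤ ‖f z‖ := by
      refine hz.2 _ ?_
      rw [norm_mul, Complex.norm_exp_ofReal_mul_I, mul_one, hz.1]
    simp only [ofReal_zero, zero_mul, Complex.exp_zero, mul_one]
    gcongr
  have h5 := hmax.hasDerivAt_eq_zero h3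
  simp only [ofReal_zero, zero_mul, Complex.exp_zero, mul_one] at h5
  have h6 : ((starRingEnd ℂ) (f z) * (z * deriv f z)).im = 0 := by
    have h7 : inner ℝ (f z) (deriv f z * (z * I)) = ((starRingEnd ℂ) (f z) * (deriv f z * (z * I))).re := by
      rw [Complex.inner, mul_comm]
    rw [h7] at h5
    have h8 : (starRingEnd ℂ) (f z) * (deriv f z * (z * I)) = (starRingEnd ℂ) (f z) * (z * deriv f z) * I := by
      ring
    rw [h8, Complex.mul_I_re] at h5
    linarith
  have h7 := Complex.conj_eq_iff_im.mpr h6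
  have hcf : (starRingEnd ℂ) (f z) ≠ 0 := by simpa using hfz
  rw [map_mul, Complex.conj_conj] at h7
  simp only [phi, map_div₀]
  rw [div_eq_div_iff hcf hfz, mul_comm _ (f z), h7, mul_comm]

lemma exists_acc {X : Type} [TopologicalSpace X] [SecondCountableTopology X] {S : Set X}
    (hS : ¬ S.Countable) : ∃ x ∈ S, ∀ V ∈ 𝓝 x, (V ∩ (S \ {x})).Nonempty := by
  by_contra h
  push Not at h
  choose! V hV hVe using h
  obtain ⟨t, htS, htc, ht⟩ := TopologicalSpace.countable_cover_nhdsWithin (s := S) (f := V)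
    (fun x hx => mem_nhdsWithin_of_mem_nhds (hV x hx))
  apply hS
  refine htc.mono ?_
  intro y hy
  obtain ⟨x, hx, hyx⟩ := Set.mem_iUnion₂.mp (ht hy)
  by_contra hne
  have h2 : y ∈ V x ∩ (S \ {x}) := ⟨hyx, hy, fun h => hne (by rw [mem_singleton_iff.mp h]; exact hx)⟩
  rw [hVe x (htS hx)] at h2
  exact h2

lemma countable_zeros {H : ℂ → ℂ} (hH : ∀ z, AnalyticAt ℂ H z) (hne : ∀ a, ¬ ∀ᶠ z in 𝓝 a, H z = 0) :
    {z | H z = 0}.Countable := by
  by_contra h
  obtain ⟨x, hx, hV⟩ := exists_acc h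
  apply hne x
  rw [← (hH x).frequently_zero_iff_eventually_zero]
  rw [frequently_iff]
  intro U hU
  obtain ⟨V, hV1, hV2⟩ := mem_nhdsWithin_iff_exists_mem_nhds_inter.mp hU
  obtain ⟨y, hy1, hy2, hy3⟩ := hV V hV1
  exact ⟨y, hV2 ⟨hy1, hy3⟩, hy2⟩

theorem few_max {f : ℂ → ℂ} (hf : Ent f) : ∃ n : ℕ,
    ¬ ∀ᶠ r : ℝ in atTop, ((n + 1 : ℕ) : ℕ∞) ≤ (maxSet f r).encard := by
  obtain ⟨n, hn⟩ := centres_empty hf (cj_ent hf)
  refine ⟨n, fun hev => ?_⟩
  obtain ⟨R0, hR0⟩ := eventually_atTop.mp hev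
  set R := max R0 1 with hR
  have hRpos : 0 < R := lt_of_lt_of_le one_pos (le_max_right _ _)
  set B : Set ℝ := norm '' {z : ℂ | Ent.num f z = 0} with hB
  have hBc : B.Countable := (countable_zeros hf.num_an hf.num_ne).image _
  set G : Set ℝ := Ici R \ B with hG
  have hGc : ¬ G.Countable := by
    intro h
    have h1 : (Ici R).Countable := (h.union hBc).mono (by
      intro x hx
      by_cases hxB : x ∈ B
      · exact Or.inr hxB
      · exact Or.inl ⟨hx, hxB⟩)
    have h2 := h1.measure_zero MeasureTheory.volume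
    rw [Real.volume_Ici] at h2
    exact ENNReal.top_ne_zero h2
  have hsel : ∀ r ∈ G, ∃ q : Fin (n + 1) → ℂ, Function.Injective q ∧ ∀ i, q i ∈ maxSet f r := by
    intro r hr
    have h1 : ((n + 1 : ℕ) : ℕ∞) ≤ (maxSet f r).encard := hR0 r ((le_max_left _ _).trans hr.1)
    obtain ⟨T, hT, hTc⟩ := Set.exists_subset_encard_eq h1
    have hTfin : T.Finite := Set.finite_of_encard_eq_coe hTc
    have hcard : hTfin.toFinset.card = n + 1 := by
      rw [hTfin.encard_eq_coe_toFinset_card] at hTc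
      exact_mod_cast hTc
    refine ⟨fun i => ((hTfin.toFinset.equivFinOfCardEq hcard).symm i : ℂ), ?_, ?_⟩
    · intro i j hij
      exact (hTfin.toFinset.equivFinOfCardEq hcard).symm.injective (Subtype.ext hij)
    · intro i
      apply hT
      have := ((hTfin.toFinset.equivFinOfCardEq hcard).symm i).2
      exact hTfin.mem_toFinset.mp this
  choose! q hqinj hqmax using hsel
  set Q : Set (Fin (n + 1) → ℂ) := q '' G with hQ
  have hnormq : ∀ r ∈ G, ‖q r 0‖ = r := fun r hr => (hqmax r hr 0).1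
  have hQc : ¬ Q.Countable := by
    intro h
    apply hGc
    refine (h.image (fun v => ‖v 0‖)).mono ?_
    intro r hr
    exact ⟨q r, ⟨r, hr, rfl⟩, hnormq r hr⟩
  obtain ⟨v, ⟨r, hr, rfl⟩, hV⟩ := exists_acc hQc
  have hcl : q r ∈ closure (Q \ {q r}) := mem_closure_iff_nhds.mpr hV
  obtain ⟨u, hu, hulim⟩ := mem_closure_iff_seq_limit.mp hcl
  choose ρ hρG hρu using fun k => (hu k).1
  have hρne : ∀ k, ρ k ≠ r := by
    intro k h
    apply (hu k).2
    rw [mem_singleton_iff, ← hρu k, h]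
  have hrpos : ∀ r ∈ G, 0 < r := fun r hr => hRpos.trans_le hr.1
  have hzlim : ∀ i, Tendsto (fun k => q (ρ k) i) atTop (𝓝 (q r i)) := by
    intro i
    have := (tendsto_pi_nhds.mp hulim) i
    refine this.congr fun k => ?_
    rw [← hρu k]
  have hq0 : ∀ r ∈ G, ∀ i, q r i ≠ 0 := by
    intro r hr i h
    have := (hqmax r hr i).1
    rw [h, norm_zero] at this
    exact (hrpos r hr).ne this
  have hmulconj : ∀ r ∈ G, ∀ i, q r i * (starRingEnd ℂ) (q r i) = ((r ^ 2 : ℝ) : ℂ) := by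
    intro r hr i
    rw [Complex.mul_conj, Complex.normSq_eq_norm_sq, (hqmax r hr i).1]
  have hvalconj : ∀ r ∈ G, ∀ i, f (q r i) * cj f ((starRingEnd ℂ) (q r i)) = ((‖f (q r 0)‖ ^ 2 : ℝ) : ℂ) := by
    intro r hr i
    simp only [cj, Function.comp, Complex.conj_conj]
    rw [Complex.mul_conj, Complex.normSq_eq_norm_sq]
    have : ‖f (q r i)‖ = ‖f (q r 0)‖ :=
      le_antisymm ((hqmax r hr 0).2 _ (hqmax r hr i).1) ((hqmax r hr i).2 _ (hqmax r hr 0).1)
    rw [this]
  have hnum : ∀ r ∈ G, ∀ i, Ent.num f (q r i) ≠ 0 := by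
    intro r hr i h
    exact hr.2 ⟨q r i, h, (hqmax r hr i).1⟩
  have hfin := base hf (cj_ent hf) (n := n) (z := fun k => q (ρ k))
    (w := fun k i => (starRingEnd ℂ) (q (ρ k) i)) (ρ := fun k => (((ρ k) ^ 2 : ℝ) : ℂ))
    (M := fun k => ((‖f (q (ρ k) 0)‖ ^ 2 : ℝ) : ℂ)) (a := q r) (b := fun i => (starRingEnd ℂ) (q r i))
    (ρ0 := ((r ^ 2 : ℝ) : ℂ)) hzlim
    (fun i => (Complex.continuous_conj.tendsto _).comp (hzlim i))
    (hq0 r hr) (fun i => by simpa using hq0 r hr i)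
    (fun i => maxSet_ne_zero hf (hrpos r hr) (hqmax r hr i))
    (fun i => by
      simp only [cj, Function.comp, Complex.conj_conj]
      simpa using maxSet_ne_zero hf (hrpos r hr) (hqmax r hr i))
    (hnum r hr)
    (fun i => by
      rw [cj_num, Complex.conj_conj]
      simpa using hnum r hr i)
    (fun k i => by
      rw [cj_phi, Complex.conj_conj, maxSet_real hf (hrpos _ (hρG k)) (hqmax _ (hρG k) i)])
    (fun k i => hmulconj _ (hρG k) i) (fun k i => hvalconj _ (hρG k) i)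
    (fun k h => by
      apply hρne k
      have h1 : (ρ k) ^ 2 = r ^ 2 := by exact_mod_cast h
      exact (pow_left_inj₀ (hrpos _ (hρG k)).le (hrpos r hr).le two_ne_zero).mp h1)
    (hmulconj r hr) (fun i j hij h => hij (hqinj r hr h))
  rw [hn n le_rfl] at hfin
  exact hfin

end Pool.Agent.LibMaxMod
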