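import Pool.Agent.LibMaxMod.Ent

set_option autoImplicit false
set_option maxHeartbeats 1000000

open Set Filter Complex
open scoped Topology

namespace Pool.Agent.LibMaxMod

/-- regular germs of points with a common value of `phi` -/
structure RegG {J : Type} (F : J → ℂ → ℂ) (p : J → ℂ → ℂ) (x : ℂ → ℂ) : Prop where
  an : ∀ j, AnalyticAt ℂ (p j) 0
  xan : AnalyticAt ℂ x 0
  xd : deriv x 0 ≠ 0
  ne : ∀ j, ∀ᶠ t in 𝓝 (0 : ℂ), F j (p j t) ≠ 0
  eq : ∀ j, ∀ᶠ t in 𝓝 (0 : ℂ), phi (F j) (p j t) = x t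

/-- limits of regular germs along an ultrafilter -/
lemma limit_germ {J : Type} [Fintype J] [Nonempty J] {ι : Type} (U : Ultrafilter ι)
    (F : J → ℂ → ℂ) (hF : ∀ j, Ent (F j)) (p : ι → J → ℂ → ℂ) (x : ι → ℂ → ℂ)
    (hreg : ∀ᶠ k in (U : Filter ι), RegG F (p k) (x k)) (a : J → ℂ)
    (hp : ∀ j, Tendsto (fun k => p k j 0) U (𝓝 (a j))) (c : Option ℂ)
    (hx : Tendsto (fun k => chart c (x k 0)) U (𝓝 0))
    (hx0 : ∀ᶠ k in (U : Filter ι), chart c (x k 0) ≠ 0) :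
    ∃ (L : ℕ) (zh : J → ℂ → ℂ), 1 ≤ L ∧ (∀ j, AnalyticAt ℂ (zh j) 0) ∧ (∀ j, zh j 0 = a j) ∧
      (∀ j, ∀ᶠ t in 𝓝[≠] (0 : ℂ), zh j t ≠ a j ∧ F j (zh j t) ≠ 0 ∧
        chart c (phi (F j) (zh j t)) = t ^ L) ∧
      ∀ V ∈ 𝓝 (0 : ℂ), ∀ᶠ k in (U : Filter ι), ∃ s ∈ V, s ≠ 0 ∧ ∃ ψ : ℂ → ℂ, map ψ (𝓝 s) = 𝓝 0 ∧
        ∀ j, ∀ᶠ t in 𝓝 s, zh j t = p k j (ψ t) := by
  have hpx : ∀ j, ∀ᶠ k in (U : Filter ι), phi (F j) (p k j 0) = x k 0 := fun j =>
    hreg.mono fun k hk => (hk.eq j).self_of_nhds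
  have hpF : ∀ j, ∀ᶠ k in (U : Filter ι), F j (p k j 0) ≠ 0 := fun j =>
    hreg.mono fun k hk => (hk.ne j).self_of_nhds
  have hgerm : ∀ j, ∃ A : ℂ → ℂ, AnalyticAt ℂ A (a j) ∧ A (a j) = 0 ∧ (¬ ∀ᶠ z in 𝓝 (a j), A z = 0) ∧
      (∀ᶠ z in 𝓝[≠] (a j), F j z ≠ 0 ∧ A z = chart c (phi (F j) z)) ∧
        ∀ᶠ k in (U : Filter ι), p k j 0 ≠ a j := by
    intro j
    refine (hF j).chart_germ (hp j) (hpF j) ?_ ?_
    · exact hx.congr' ((hpx j).mono fun k hk => by simp only [hk])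
    · filter_upwards [hx0, hpx j] with k h1 h2
      rwa [h2]
  choose A hA hA0 hAnz hAF hpa using hgerm
  have hp' : ∀ j, Tendsto (fun k => p k j 0) U (𝓝[≠] (a j)) := fun j =>
    tendsto_nhdsWithin_iff.mpr ⟨hp j, hpa j⟩
  have hyA : ∀ᶠ k in (U : Filter ι), ∀ j, A j (p k j 0) = chart c (x k 0) := by
    rw [Filter.eventually_all]
    intro j
    filter_upwards [(hp' j).eventually (hAF j), hpx j] with k h1 h2
    rw [h1.2, h2]
  obtain ⟨L, zh, s, hL, hzan, hz0, hzA, hs0, hsz⟩ := puiseux U A a hA hA0 hAnz (fun k j => p k j 0) hp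
    (fun k => chart c (x k 0)) hx hyA
  have hL0 : L ≠ 0 := Nat.one_le_iff_ne_zero.mp hL
  have hza : ∀ j, ∀ᶠ t in 𝓝[≠] (0 : ℂ), zh j t ≠ a j := by
    intro j
    filter_upwards [(hzA j).filter_mono nhdsWithin_le_nhds, self_mem_nhdsWithin] with t h1 h2 h3
    rw [h3, hA0 j] at h1
    exact pow_ne_zero L h2 h1.symm
  have hzt : ∀ j, Tendsto (zh j) (𝓝[≠] 0) (𝓝[≠] (a j)) := by
    intro j
    refine tendsto_nhdsWithin_iff.mpr ⟨?_, hza j⟩
    have := (hzan j).continuousAt.tendsto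
    rw [hz0 j] at this
    exact this.mono_left nhdsWithin_le_nhds
  refine ⟨L, zh, hL, hzan, hz0, ?_, ?_⟩
  · intro j
    filter_upwards [hza j, (hzt j).eventually (hAF j), (hzA j).filter_mono nhdsWithin_le_nhds]
      with t h1 h2 h3
    exact ⟨h1, h2.1, by rw [← h2.2, h3]⟩
  · intro V hV
    have e1 : ∀ᶠ k in (U : Filter ι), s k ∈ V := hs0 hV
    have e2 : ∀ᶠ k in (U : Filter ι), ∀ j, AnalyticAt ℂ (zh j) (s k) ∧
        ∀ᶠ t in 𝓝 (s k), A j (zh j t) = t ^ L := by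
      rw [Filter.eventually_all]
      intro j
      exact (hs0.eventually (hzan j).eventually_analyticAt).and
        (hs0.eventually (eventually_eventually_nhds.mpr (hzA j)))
    have e3 : ∀ᶠ k in (U : Filter ι), ∀ j, AnalyticAt ℂ (A j) (p k j 0) ∧
        ∀ᶠ z in 𝓝 (p k j 0), F j z ≠ 0 ∧ A j z = chart c (phi (F j) z) := by
      rw [Filter.eventually_all]
      intro j
      exact ((hp j).eventually (hA j).eventually_analyticAt).and
        ((hp' j).eventually (punct_eventually (hAF j)))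
    filter_upwards [e1, e2, e3, hsz, hx0, hreg] with k h1 h2 h3 h4 h5 h6
    have hsk : s k ≠ 0 := by
      intro h
      rw [h, zero_pow hL0] at h4
      exact h5 h4.1.symm
    obtain ⟨hyan, hyd⟩ := chart_an h6.xan h6.xd h5
    refine ⟨s k, h1, hsk, ?_⟩
    refine transfer hL h6.an (fun j => (h2 j).1) h4.2 (fun j => (h3 j).1) hyan hyd hsk h4.1 ?_
      (fun j => (h2 j).2)
    intro j
    filter_upwards [h6.eq j, (h6.an j).continuousAt.tendsto.eventually (h3 j).2] with t h7 h8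
    rw [h8.2, h7]

end Pool.Agent.LibMaxMod
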