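import Pool.Agent.LibMaxMod.Limit

set_option autoImplicit false
set_option maxHeartbeats 1000000

open Set Filter Complex
open scoped Topology

namespace Pool.Agent.LibMaxMod

/-- pointwise relations of a tie -/
structure Rel (f g : ℂ → ℂ) {n : ℕ} (z w : Fin (n + 1) → ℂ) : Prop where
  z0 : ∀ i, z i ≠ 0
  w0 : ∀ i, w i ≠ 0
  fz : ∀ i, f (z i) ≠ 0
  gw : ∀ i, g (w i) ≠ 0
  pz : ∀ i, phi f (z i) = phi f (z 0)
  pw : ∀ i, phi g (w i) = phi f (z 0)
  mul : ∀ i, z i * w i = z 0 * w 0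
  val : ∀ i, f (z i) * g (w i) = f (z 0) * g (w 0)
  inj : ∀ i j, i ≠ j → z i ≠ z j

lemma Rel.swap {f g : ℂ → ℂ} {n : ℕ} {z w : Fin (n + 1) → ℂ} (h : Rel f g z w) : Rel g f w z where
  z0 := h.w0
  w0 := h.z0
  fz := h.gw
  gw := h.fz
  pz := fun i => by rw [h.pw i, h.pw 0]
  pw := fun i => by rw [h.pz i, h.pw 0]
  mul := fun i => by rw [mul_comm, h.mul i, mul_comm]
  val := fun i => by rw [mul_comm, h.val i, mul_comm]
  inj := fun i j hij hw => by
    apply h.inj i j hij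
    have h1 := h.mul i
    rw [← h.mul j, hw] at h1
    exact mul_right_cancel₀ (h.w0 j) h1

/-- germs of ties -/
structure Tie (f g : ℂ → ℂ) (n : ℕ) (z w : Fin (n + 1) → ℂ → ℂ) : Prop where
  zan : ∀ i, AnalyticAt ℂ (z i) 0
  wan : ∀ i, AnalyticAt ℂ (w i) 0
  z0 : ∀ i, z i 0 ≠ 0
  w0 : ∀ i, w i 0 ≠ 0
  rel : ∀ᶠ t in 𝓝[≠] (0 : ℂ), Rel f g (fun i => z i t) (fun i => w i t)
  nc : ¬ ∀ᶠ t in 𝓝 (0 : ℂ), z 0 t * w 0 t = z 0 0 * w 0 0

/-- regular germs of ties -/
structure RegTie (f g : ℂ → ℂ) (n : ℕ) (z w : Fin (n + 1) → ℂ → ℂ) : Prop where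
  zan : ∀ i, AnalyticAt ℂ (z i) 0
  wan : ∀ i, AnalyticAt ℂ (w i) 0
  rel : ∀ᶠ t in 𝓝 (0 : ℂ), Rel f g (fun i => z i t) (fun i => w i t)
  xd : deriv (fun t => phi f (z 0 t)) 0 ≠ 0
  rd : deriv (fun t => z 0 t * w 0 t) 0 ≠ 0

lemma RegTie.swap {f g : ℂ → ℂ} {n : ℕ} {z w : Fin (n + 1) → ℂ → ℂ} (h : RegTie f g n z w) :
    RegTie g f n w z where
  zan := h.wan
  wan := h.zan
  rel := h.rel.mono fun t ht => ht.swap
  xd := by
    have : deriv (fun t => phi g (w 0 t)) 0 = deriv (fun t => phi f (z 0 t)) 0 :=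
      Filter.EventuallyEq.deriv_eq (h.rel.mono fun t ht => ht.pw 0)
    rw [this]; exact h.xd
  rd := by
    have : (fun t => w 0 t * z 0 t) = (fun t => z 0 t * w 0 t) := by
      funext t; rw [mul_comm]
    rw [this]; exact h.rd

lemma eventually_const_of_deriv {u : ℂ → ℂ} {a : ℂ} (hu : AnalyticAt ℂ u a)
    (hd : ∀ᶠ z in 𝓝 a, deriv u z = 0) : ∀ᶠ z in 𝓝 a, u z = u a := by
  obtain ⟨r, hr, hball⟩ := Metric.eventually_nhds_iff_ball.mp (hd.and hu.eventually_analyticAt)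
  refine Metric.eventually_nhds_iff_ball.mpr ⟨r, hr, fun z hz => ?_⟩
  exact Metric.isOpen_ball.is_const_of_deriv_eq_zero (convex_ball a r).isPreconnected
    (fun x hx => (hball x hx).2.differentiableAt.differentiableWithinAt)
    (fun x hx => (hball x hx).1) hz (Metric.mem_ball_self hr)

lemma comp_ne {H u : ℂ → ℂ} {a : ℂ} (hu : AnalyticAt ℂ u a) (hH : AnalyticAt ℂ H (u a))
    (hnc : ¬ ∀ᶠ t in 𝓝 a, u t = u a) (hnz : ¬ ∀ᶠ z in 𝓝 (u a), H z = 0) :
    ∀ᶠ t in 𝓝[≠] a, H (u t) ≠ 0 := by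
  have han : AnalyticAt ℂ (fun t => H (u t)) a := AnalyticAt.comp (g := H) (f := u) hH hu
  rcases han.eventually_eq_zero_or_eventually_ne_zero with h | h
  · exfalso
    rcases hu.eventually_constant_or_nhds_le_map_nhds with h1 | h1
    · exact hnc h1
    · exact hnz (h1 h)
  · exact h

namespace Ent

variable {F : ℂ → ℂ}

/-- numerator of the derivative of `phi F` -/
noncomputable def num (F : ℂ → ℂ) (z : ℂ) : ℂ :=
  (1 * deriv F z + z * deriv (deriv F) z) * F z - z * deriv F z * deriv F z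

lemma num_an (hF : Ent F) (z : ℂ) : AnalyticAt ℂ (num F) z :=
  (((analyticAt_const.mul (hF.analytic_deriv z)).add
    (analyticAt_id.mul (hF.analytic_deriv z).deriv)).mul (hF.analytic z)).sub
    ((analyticAt_id.mul (hF.analytic_deriv z)).mul (hF.analytic_deriv z))

lemma phi_deriv (hF : Ent F) {z : ℂ} (hz : F z ≠ 0) : HasDerivAt (phi F) (num F z / F z ^ 2) z := by
  have h1 : HasDerivAt (fun z => z * deriv F z) (1 * deriv F z + z * deriv (deriv F) z) z :=
    (hasDerivAt_id z).mul (hF.analytic_deriv z).differentiableAt.hasDerivAt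
  exact h1.div (hF.analytic z).differentiableAt.hasDerivAt hz

lemma num_ne (hF : Ent F) (a : ℂ) : ¬ ∀ᶠ z in 𝓝 a, num F z = 0 := by
  intro h
  have h1 : AnalyticOnNhd ℂ (num F) univ := fun z _ => hF.num_an z
  have h0 : AnalyticOnNhd ℂ (fun _ : ℂ => (0 : ℂ)) univ := fun z _ => analyticAt_const
  have heq := h1.eqOn_of_preconnected_of_eventuallyEq h0 isPreconnected_univ (mem_univ a) h
  have h2 : ∀ᶠ z in 𝓝 (0 : ℂ), phi F z = phi F 0 := by
    refine eventually_const_of_deriv (hF.phi_an hF.zero) ?_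
    filter_upwards [(hF.analytic 0).continuousAt.eventually_ne hF.zero] with z hz
    rw [(hF.phi_deriv hz).deriv, heq (mem_univ z), zero_div]
  exact hF.phi_nc hF.zero _ h2

end Ent

lemma Tie.z_nc {f g : ℂ → ℂ} (hg : Ent g) {n : ℕ} {z w : Fin (n + 1) → ℂ → ℂ}
    (h : Tie f g n z w) : ¬ ∀ᶠ t in 𝓝 (0 : ℂ), z 0 t = z 0 0 := by
  intro hz
  by_cases hw : ∀ᶠ t in 𝓝 (0 : ℂ), w 0 t = w 0 0
  · apply h.nc
    filter_upwards [hz, hw] with t h1 h2
    rw [h1, h2]
  · have h1 := comp_ne (H := fun x => x * deriv g x - phi f (z 0 0) * g x) (h.wan 0)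
      ((analyticAt_id.mul (hg.analytic_deriv _)).sub (analyticAt_const.mul (hg.analytic _))) hw
      (hg.lin_ne _ _)
    obtain ⟨t, h2, h3, h4⟩ := (h1.and (h.rel.and (hz.filter_mono nhdsWithin_le_nhds))).exists
    apply h2
    have h5 := h3.pw 0
    have h6 := h3.gw 0
    simp only [h4] at h5
    simp only [phi] at h5 ⊢
    rw [← h5]
    field_simp
    ring

/-- a generic recentring of a tie germ is regular -/
lemma Tie.regular {f g : ℂ → ℂ} (hf : Ent f) (hg : Ent g) {n : ℕ} {z w : Fin (n + 1) → ℂ → ℂ}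
    (h : Tie f g n z w) (c : ℂ) :
    ∀ᶠ s in 𝓝[≠] (0 : ℂ), RegTie f g n (fun i t => z i (s + t)) (fun i t => w i (s + t)) ∧
      phi f (z 0 s) ≠ c := by
  have hznc := h.z_nc hg
  have hρan : AnalyticAt ℂ (fun t => z 0 t * w 0 t) 0 := (h.zan 0).mul (h.wan 0)
  -- derivative conditions
  have hzd : ∀ᶠ s in 𝓝[≠] (0 : ℂ), deriv (z 0) s ≠ 0 := by
    rcases (h.zan 0).deriv.eventually_eq_zero_or_eventually_ne_zero with h1 | h1
    · exact absurd (eventually_const_of_deriv (h.zan 0) h1) hznc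
    · exact h1
  have hρd : ∀ᶠ s in 𝓝[≠] (0 : ℂ), deriv (fun t => z 0 t * w 0 t) s ≠ 0 := by
    rcases hρan.deriv.eventually_eq_zero_or_eventually_ne_zero with h1 | h1
    · exact absurd (eventually_const_of_deriv hρan h1) h.nc
    · exact h1
  have hnum : ∀ᶠ s in 𝓝[≠] (0 : ℂ), Ent.num f (z 0 s) ≠ 0 :=
    comp_ne (h.zan 0) (hf.num_an _) hznc (hf.num_ne _)
  have hlin : ∀ᶠ s in 𝓝[≠] (0 : ℂ), z 0 s * deriv f (z 0 s) - c * f (z 0 s) ≠ 0 :=
    comp_ne (H := fun x => x * deriv f x - c * f x) (h.zan 0)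
      ((analyticAt_id.mul (hf.analytic_deriv _)).sub (analyticAt_const.mul (hf.analytic _))) hznc
      (hf.lin_ne _ _)
  have hza : ∀ᶠ s in 𝓝[≠] (0 : ℂ), ∀ i, AnalyticAt ℂ (z i) s ∧ AnalyticAt ℂ (w i) s := by
    rw [Filter.eventually_all]
    intro i
    exact ((h.zan i).eventually_analyticAt.and (h.wan i).eventually_analyticAt).filter_mono
      nhdsWithin_le_nhds
  filter_upwards [hzd, hρd, hnum, hlin, hza, punct_eventually h.rel] with s h1 h2 h3 h4 h5 h6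
  have hsh : AnalyticAt ℂ (fun t : ℂ => s + t) 0 := analyticAt_const.add analyticAt_id
  have hst : Tendsto (fun t : ℂ => s + t) (𝓝 0) (𝓝 s) := by
    have := hsh.continuousAt.tendsto
    simpa using this
  have hrel := h6.self_of_nhds
  refine ⟨⟨?_, ?_, ?_, ?_, ?_⟩, ?_⟩
  · intro i
    refine AnalyticAt.comp (g := z i) (f := fun t : ℂ => s + t) ?_ hsh
    simpa using (h5 i).1
  · intro i
    refine AnalyticAt.comp (g := w i) (f := fun t : ℂ => s + t) ?_ hsh
    simpa using (h5 i).2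
  · exact hst.eventually h6
  · have e1 : deriv (fun t => phi f (z 0 (s + t))) 0 = deriv (fun t => phi f (z 0 t)) (s + 0) :=
      deriv_comp_const_add (f := fun t => phi f (z 0 t)) s 0
    have e2 : HasDerivAt (fun t => phi f (z 0 t)) (Ent.num f (z 0 s) / f (z 0 s) ^ 2 * deriv (z 0) s) s :=
      HasDerivAt.comp (h₂ := phi f) (h := z 0) s (hf.phi_deriv (hrel.fz 0))
        (h5 0).1.differentiableAt.hasDerivAt
    rw [e1, add_zero, e2.deriv]
    exact mul_ne_zero (div_ne_zero h3 (pow_ne_zero _ (hrel.fz 0))) h1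
  · have e1 : deriv (fun t => z 0 (s + t) * w 0 (s + t)) 0 = deriv (fun t => z 0 t * w 0 t) (s + 0) :=
      deriv_comp_const_add (f := fun t => z 0 t * w 0 t) s 0
    rw [e1, add_zero]
    exact h2
  · intro h7
    apply h4
    rw [← h7, phi]
    have := hrel.fz 0
    field_simp
    ring

/-- recentring a tie germ (nearby points are again centres) -/
lemma RegTie.tie {f g : ℂ → ℂ} {n : ℕ} {z w : Fin (n + 1) → ℂ → ℂ} (h : RegTie f g n z w) :
    Tie f g n z w where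
  zan := h.zan
  wan := h.wan
  z0 := h.rel.self_of_nhds.z0
  w0 := h.rel.self_of_nhds.w0
  rel := h.rel.filter_mono nhdsWithin_le_nhds
  nc := by
    intro h1
    apply h.rd
    have : deriv (fun t => z 0 t * w 0 t) 0 = deriv (fun _ : ℂ => z 0 0 * w 0 0) 0 :=
      Filter.EventuallyEq.deriv_eq h1
    rw [this, deriv_const]

/-- the set of centres -/
def centres (f g : ℂ → ℂ) (n : ℕ) : Set (ℂ × ℂ) :=
  {P | ∃ z w : Fin (n + 1) → ℂ → ℂ, Tie f g n z w ∧ z 0 0 = P.1 ∧ w 0 0 = P.2}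

end Pool.Agent.LibMaxMod
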