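import Pool.Agent.LibMaxMod.Basic

set_option autoImplicit false
set_option maxHeartbeats 1000000

open Set Filter Complex
open scoped Topology

namespace Pool.Agent.LibMaxMod

lemma deriv_left_ne {A p y : ℂ → ℂ} (hA : AnalyticAt ℂ A (p 0)) (hp : AnalyticAt ℂ p 0)
    (hAp : ∀ᶠ t in 𝓝 (0 : ℂ), A (p t) = y t) (hy' : deriv y 0 ≠ 0) : deriv A (p 0) ≠ 0 := by
  intro h
  apply hy'
  have h1 : HasDerivAt (fun t => A (p t)) (deriv A (p 0) * deriv p 0) 0 :=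
    hA.differentiableAt.hasDerivAt.comp 0 hp.differentiableAt.hasDerivAt
  have h2 : deriv y 0 = deriv (fun t => A (p t)) 0 := by
    refine (Filter.EventuallyEq.deriv_eq ?_).symm
    exact hAp
  rw [h2, h1.deriv, h, zero_mul]

lemma transfer {J : Type} {L : ℕ} {A : J → ℂ → ℂ} {p zh : J → ℂ → ℂ} {y : ℂ → ℂ} {s0 : ℂ}
    (hL : 1 ≤ L) (hp : ∀ j, AnalyticAt ℂ (p j) 0) (hzh : ∀ j, AnalyticAt ℂ (zh j) s0)
    (hpz : ∀ j, zh j s0 = p j 0) (hA : ∀ j, AnalyticAt ℂ (A j) (p j 0))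
    (hy : AnalyticAt ℂ y 0) (hy' : deriv y 0 ≠ 0) (hs0 : s0 ≠ 0) (hy0 : s0 ^ L = y 0)
    (hAp : ∀ j, ∀ᶠ t in 𝓝 (0 : ℂ), A j (p j t) = y t)
    (hAz : ∀ j, ∀ᶠ s in 𝓝 s0, A j (zh j s) = s ^ L) :
    ∃ ψ : ℂ → ℂ, map ψ (𝓝 s0) = 𝓝 0 ∧ ∀ j, ∀ᶠ s in 𝓝 s0, zh j s = p j (ψ s) := by
  obtain ⟨Y, hYan, hY0, hYr, hYl⟩ := inv_germ hy hy'
  rw [← hy0] at hYan hY0 hYr
  have hpow : Tendsto (fun s : ℂ => s ^ L) (𝓝 s0) (𝓝 (s0 ^ L)) :=
    (continuous_pow L).continuousAt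
  have hψan : AnalyticAt ℂ (fun s => Y (s ^ L)) s0 :=
    AnalyticAt.comp (g := Y) (f := fun s : ℂ => s ^ L) hYan (analyticAt_id.pow L)
  have hyψ : ∀ᶠ s in 𝓝 s0, y (Y (s ^ L)) = s ^ L := hpow.eventually hYr
  have hψ' : deriv (fun s => Y (s ^ L)) s0 ≠ 0 := by
    intro h
    have h1 : HasDerivAt (fun s => y (Y (s ^ L))) (deriv y 0 * deriv (fun s => Y (s ^ L)) s0) s0 := by
      have e1 : HasDerivAt y (deriv y 0) (Y (s0 ^ L)) := by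
        rw [hY0]; exact hy.differentiableAt.hasDerivAt
      exact HasDerivAt.comp (h₂ := y) (h := fun s => Y (s ^ L)) s0 e1 hψan.differentiableAt.hasDerivAt
    have h2 : HasDerivAt (fun s : ℂ => s ^ L) (L * s0 ^ (L - 1)) s0 := hasDerivAt_pow L s0
    have h3 : deriv (fun s => y (Y (s ^ L))) s0 = deriv (fun s : ℂ => s ^ L) s0 :=
      Filter.EventuallyEq.deriv_eq hyψ
    rw [h1.deriv, h2.deriv, h, mul_zero] at h3
    have h4 : (L : ℂ) * s0 ^ (L - 1) ≠ 0 := mul_ne_zero (by exact_mod_cast (Nat.one_le_iff_ne_zero.mp hL)) (pow_ne_zero _ hs0)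
    exact h4 h3.symm
  have hmap : map (fun s => Y (s ^ L)) (𝓝 s0) = 𝓝 0 := by
    have := hψan.hasStrictDerivAt.map_nhds_eq hψ'
    rw [this, hY0]
  refine ⟨fun s => Y (s ^ L), hmap, fun j => ?_⟩
  have hAd : deriv (A j) (p j 0) ≠ 0 := deriv_left_ne (hA j) (hp j) (hAp j) hy'
  obtain ⟨W, hWan, hW0, hWr, hWl⟩ := inv_germ (hA j) hAd
  have t1 : Tendsto (zh j) (𝓝 s0) (𝓝 (p j 0)) := by
    have := (hzh j).continuousAt.tendsto
    rwa [hpz j] at this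
  have tψ : Tendsto (fun s => Y (s ^ L)) (𝓝 s0) (𝓝 0) := hmap.le
  have t2 : Tendsto (fun s => p j (Y (s ^ L))) (𝓝 s0) (𝓝 (p j 0)) :=
    (hp j).continuousAt.tendsto.comp tψ
  filter_upwards [t1.eventually hWl, t2.eventually hWl, hAz j, tψ.eventually (hAp j), hyψ]
    with s h1 h2 h3 h4 h5
  calc zh j s = W (A j (zh j s)) := h1.symm
    _ = W (A j (p j (Y (s ^ L)))) := by rw [h3, h4, h5]
    _ = p j (Y (s ^ L)) := h2

end Pool.Agent.LibMaxMod
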